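import Mathlib

/-!
# Exponentials in a complex Banach algebra: a few algebraic facts
-/

open NormedSpace Filter Topology

namespace Pool.Agent.Lib.Helper28.Split

variable {R : Type*} [NormedRing R] [NormedAlgebra ℂ R] [CompleteSpace R]

lemma exp_add_comm' {x y : R} (h : Commute x y) : exp (x + y) = exp x * exp y :=
  exp_add_of_commute_of_mem_ball (𝕂 := ℂ) h
    ((expSeries_radius_eq_top ℂ R).symm ▸ edist_lt_top _ _)
    ((expSeries_radius_eq_top ℂ R).symm ▸ edist_lt_top _ _)

lemma exp_add_smul (a b : ℂ) (x : R) : exp ((a + b) • x) = exp (a • x) * exp (b • x) := by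
  rw [add_smul]
  exact exp_add_comm' (((Commute.refl x).smul_left a).smul_right b)

lemma exp_mul_exp_neg (x : R) : exp x * exp (-x) = 1 := by
  rw [← exp_add_comm' ((Commute.refl x).neg_right), add_neg_cancel, exp_zero]

lemma exp_neg_mul_exp (x : R) : exp (-x) * exp x = 1 := by
  rw [← exp_add_comm' ((Commute.refl x).neg_left), neg_add_cancel, exp_zero]

/-- The exponential as a unit. -/
noncomputable def uexp (x : R) : Rˣ := ⟨exp x, exp (-x), exp_mul_exp_neg x, exp_neg_mul_exp x⟩

@[simp] lemma uexp_val (x : R) : ((uexp x : Rˣ) : R) = exp x := rfl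

@[simp] lemma uexp_inv_val (x : R) : (((uexp x)⁻¹ : Rˣ) : R) = exp (-x) := rfl

lemma uexp_inv (x : R) : (uexp x)⁻¹ = uexp (-x) := by
  ext
  rfl

lemma uexp_add_smul (a b : ℂ) (x : R) : uexp ((a + b) • x) = uexp (a • x) * uexp (b • x) := by
  ext
  exact exp_add_smul a b x

lemma uexp_zero : uexp (0 : R) = 1 := by
  ext
  simp

lemma hasSum_exp (x : R) : HasSum (fun n : ℕ => ((n.factorial : ℂ)⁻¹) • x ^ n) (exp x) :=
  exp_series_hasSum_exp' (𝕂 := ℂ) x

section FiniteDim

variable [FiniteDimensional ℂ R]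

lemma exp_mem_of_pow_mem (M : Submodule ℂ R) (x : R) (h : ∀ n, x ^ n ∈ M) : exp x ∈ M := by
  have hc : IsClosed (M : Set R) := M.closed_of_finiteDimensional
  refine hc.mem_of_tendsto (hasSum_exp x).tendsto_sum_nat (Eventually.of_forall (fun n => ?_))
  exact M.sum_mem (fun i _ => M.smul_mem _ (h i))

lemma exp_sub_one_mem (M : Submodule ℂ R) (x : R) (h : ∀ n, x ^ (n + 1) ∈ M) :
    exp x - 1 ∈ M := by
  have hc : IsClosed (M : Set R) := M.closed_of_finiteDimensional
  have h1 := (hasSum_nat_add_iff' 1).mpr (hasSum_exp x)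
  simp only [Finset.range_one, Finset.sum_singleton, Nat.factorial_zero, Nat.cast_one, inv_one,
    pow_zero, one_smul] at h1
  refine hc.mem_of_tendsto h1.tendsto_sum_nat (Eventually.of_forall (fun n => ?_))
  exact M.sum_mem (fun i _ => M.smul_mem _ (h i))

lemma exp_sub_one_sub_mem (M : Submodule ℂ R) (x : R) (h : ∀ n, x ^ (n + 2) ∈ M) :
    exp x - 1 - x ∈ M := by
  have hc : IsClosed (M : Set R) := M.closed_of_finiteDimensional
  have h1 := (hasSum_nat_add_iff' 2).mpr (hasSum_exp x)
  have h2 : exp x - ∑ i ∈ Finset.range 2, ((i.factorial : ℂ)⁻¹) • x ^ i = exp x - 1 - x := by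
    rw [Finset.sum_range_succ, Finset.sum_range_one]
    simp [sub_sub]
  rw [h2] at h1
  refine hc.mem_of_tendsto h1.tendsto_sum_nat (Eventually.of_forall (fun n => ?_))
  exact M.sum_mem (fun i _ => M.smul_mem _ (h i))

/-- A derivation `δ` with `δ x = x` satisfies `δ (exp x) = exp x * x`. -/
lemma derivation_exp (δ : R →ₗ[ℂ] R) (hδ : ∀ x y, δ (x * y) = δ x * y + x * δ y) (x : R)
    (hx : δ x = x) : δ (exp x) = exp x * x := by
  have hδ1 : δ 1 = 0 := by
    have := hδ 1 1
    simp only [mul_one, one_mul] at this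
    have h2 : δ 1 + 0 = δ 1 + δ 1 := by rw [add_zero]; exact this
    exact (add_left_cancel h2).symm
  have hpow : ∀ n : ℕ, δ (x ^ n) = (n : ℂ) • x ^ n := by
    intro n
    induction n with
    | zero => simp [hδ1]
    | succ n ih =>
      rw [pow_succ, hδ, ih, hx, smul_mul_assoc, Nat.cast_succ, add_smul, one_smul]
  have hcont : Continuous δ := δ.continuous_of_finiteDimensional
  have h1 : HasSum (fun n : ℕ => δ (((n.factorial : ℂ)⁻¹) • x ^ n)) (δ (exp x)) :=
    (hasSum_exp x).map δ hcont
  have h2 : HasSum (fun n : ℕ => δ ((((n + 1).factorial : ℂ)⁻¹) • x ^ (n + 1))) (δ (exp x)) := by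
    have := (hasSum_nat_add_iff' 1).mpr h1
    simpa [hδ1] using this
  have h3 : ∀ n : ℕ, δ ((((n + 1).factorial : ℂ)⁻¹) • x ^ (n + 1))
      = (((n.factorial : ℂ)⁻¹) • x ^ n) * x := by
    intro n
    rw [map_smul, hpow, smul_smul, smul_mul_assoc, ← pow_succ]
    congr 1
    rw [Nat.factorial_succ]
    push_cast
    have hn : ((n : ℂ) + 1) ≠ 0 := by exact_mod_cast Nat.succ_ne_zero n
    have hf : (n.factorial : ℂ) ≠ 0 := by exact_mod_cast Nat.factorial_ne_zero n
    field_simp
  simp_rw [h3] at h2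
  exact h2.unique ((hasSum_exp x).mul_right x)

/-- Exponential of an operator applied to a vector. -/
lemma hasSum_exp_apply (T : R →L[ℂ] R) (z : R) :
    HasSum (fun n : ℕ => ((n.factorial : ℂ)⁻¹) • (T ^ n) z) ((exp T) z) := by
  have h1 := hasSum_exp (R := R →L[ℂ] R) T
  exact h1.map (ContinuousLinearMap.apply ℂ R z).toLinearMap
    (ContinuousLinearMap.apply ℂ R z).continuous

/-- If a subspace `M` is stable under `y ↦ y x - x y`, it is stable under conjugation by
`exp x`. -/
lemma conj_exp_mem (M : Submodule ℂ R) (x : R) (hM : ∀ y ∈ M, y * x - x * y ∈ M) :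
    ∀ y ∈ M, exp (-x) * y * exp x ∈ M := by
  intro y hy
  set Lx : R →L[ℂ] R := ContinuousLinearMap.mul ℂ R (-x) with hLx
  set Rx : R →L[ℂ] R := (ContinuousLinearMap.mul ℂ R).flip x with hRx
  have hcomm : Commute Lx Rx := by
    ext z
    simp [hLx, hRx, mul_assoc]
  have hLpow : ∀ (n : ℕ) (z : R), (Lx ^ n) z = (-x) ^ n * z := by
    intro n
    induction n with
    | zero => intro z; simp
    | succ n ih =>
      intro z
      have : (Lx ^ (n + 1)) z = (Lx ^ n) (Lx z) := by rw [pow_succ]; rfl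
      rw [this, ih, hLx, ContinuousLinearMap.mul_apply', ← mul_assoc, ← pow_succ]
  have hRpow : ∀ (n : ℕ) (z : R), (Rx ^ n) z = z * x ^ n := by
    intro n
    induction n with
    | zero => intro z; simp
    | succ n ih =>
      intro z
      have : (Rx ^ (n + 1)) z = (Rx ^ n) (Rx z) := by rw [pow_succ]; rfl
      rw [this, ih, hRx, ContinuousLinearMap.flip_apply,
        ContinuousLinearMap.mul_apply', mul_assoc, ← pow_succ']
  have hLexp : ∀ z : R, (exp Lx) z = exp (-x) * z := by
    intro z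
    have h1 := hasSum_exp_apply Lx z
    have h2 := (hasSum_exp (-x)).mul_right z
    have h3 : (fun n : ℕ => ((n.factorial : ℂ)⁻¹) • (Lx ^ n) z)
        = fun n : ℕ => ((n.factorial : ℂ)⁻¹) • (-x) ^ n * z := by
      funext n
      rw [hLpow, smul_mul_assoc]
    rw [h3] at h1
    exact h1.unique h2
  have hRexp : ∀ z : R, (exp Rx) z = z * exp x := by
    intro z
    have h1 := hasSum_exp_apply Rx z
    have h2 := (hasSum_exp x).mul_left z
    have h3 : (fun n : ℕ => ((n.factorial : ℂ)⁻¹) • (Rx ^ n) z)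
        = fun n : ℕ => z * ((n.factorial : ℂ)⁻¹) • x ^ n := by
      funext n
      rw [hRpow, mul_smul_comm]
    rw [h3] at h1
    exact h1.unique h2
  have hsum : ∀ z : R, (Lx + Rx) z = z * x - x * z := by
    intro z
    simp only [hLx, hRx, add_apply, ContinuousLinearMap.mul_apply',
      ContinuousLinearMap.flip_apply, neg_mul]
    abel
  have hpow : ∀ n : ℕ, ((Lx + Rx) ^ n) y ∈ M := by
    intro n
    induction n with
    | zero => simpa using hy
    | succ n ih =>
      have : ((Lx + Rx) ^ (n + 1)) y = (Lx + Rx) (((Lx + Rx) ^ n) y) := by rw [pow_succ']; rfl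
      rw [this, hsum]
      exact hM _ ih
  have hmem : (exp (Lx + Rx)) y ∈ M := by
    have hc : IsClosed (M : Set R) := M.closed_of_finiteDimensional
    refine hc.mem_of_tendsto (hasSum_exp_apply (Lx + Rx) y).tendsto_sum_nat
      (Eventually.of_forall (fun n => ?_))
    exact M.sum_mem (fun i _ => M.smul_mem _ (hpow i))
  have hfin : (exp (Lx + Rx)) y = exp (-x) * y * exp x := by
    rw [exp_add_comm' hcomm]
    change (exp Lx) ((exp Rx) y) = _
    rw [hRexp, hLexp, mul_assoc]
  rw [← hfin]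
  exact hmem

end FiniteDim

end Pool.Agent.Lib.Helper28.Split
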