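import Mathlib
import Pool.Agent.Lib.Helper28.Split.ExpLemmas

/-!
# Filtered algebras with a grading derivation and two generators

`Data R N` packages a finite filtration `I 0 = ⊤ ⊇ I 1 ⊇ … ⊇ I (N+1) = ⊥` of a Banach algebra,
a derivation `δ` acting as `k` on `I k / I (k+1)`, and two elements `X false`, `X true` of degree
one.  We study the group generated by exponentials.
-/

open NormedSpace Filter Topology

set_option linter.unusedSectionVars false

noncomputable section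

namespace Pool.Agent.Lib.Helper28.Split

/-- A filtered algebra with a grading derivation and two elements of degree one. -/
structure Data (R : Type*) [NormedRing R] [NormedAlgebra ℂ R] (N : ℕ) where
  /-- The filtration. -/
  I : ℕ → Submodule ℂ R
  I_zero : I 0 = ⊤
  I_succ_le : ∀ k, I (k + 1) ≤ I k
  I_mul : ∀ {j k : ℕ} {x y : R}, x ∈ I j → y ∈ I k → x * y ∈ I (j + k)
  I_top : I (N + 1) = ⊥
  /-- The grading derivation. -/
  δ : R →ₗ[ℂ] R
  δ_mul : ∀ x y, δ (x * y) = δ x * y + x * δ y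
  δ_I : ∀ (k : ℕ) (y : R), y ∈ I k → δ y - (k : ℂ) • y ∈ I (k + 1)
  /-- The two generators. -/
  X : Bool → R
  X_mem : ∀ i, X i ∈ I 1
  δ_X : ∀ i, δ (X i) = X i

namespace Data

variable {R : Type*} [NormedRing R] [NormedAlgebra ℂ R] {N : ℕ} (D : Data R N)

lemma I_le {j k : ℕ} (h : j ≤ k) : D.I k ≤ D.I j := by
  induction h with
  | refl => exact le_refl _
  | step _ ih => exact (D.I_succ_le _).trans ih

lemma I_eq_bot {k : ℕ} (h : N + 1 ≤ k) : D.I k = ⊥ := by
  have := D.I_le h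
  rw [D.I_top] at this
  exact le_bot_iff.mp this

lemma mem_I_zero (x : R) : x ∈ D.I 0 := by rw [D.I_zero]; trivial

lemma mul_mem_left {k : ℕ} (x : R) {y : R} (hy : y ∈ D.I k) : x * y ∈ D.I k := by
  have := D.I_mul (D.mem_I_zero x) hy
  rwa [zero_add] at this

lemma mul_mem_right {k : ℕ} {x : R} (y : R) (hx : x ∈ D.I k) : x * y ∈ D.I k := by
  have := D.I_mul hx (D.mem_I_zero y)
  rwa [add_zero] at this

lemma δ_one : D.δ 1 = 0 := by
  have := D.δ_mul 1 1
  simp only [mul_one, one_mul] at this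
  have h2 : D.δ 1 + 0 = D.δ 1 + D.δ 1 := by rw [add_zero]; exact this
  exact (add_left_cancel h2).symm

lemma δ_mem {k : ℕ} {y : R} (hy : y ∈ D.I k) : D.δ y ∈ D.I k := by
  have h1 := D.I_succ_le k (D.δ_I k y hy)
  have h2 := (D.I k).smul_mem (k : ℂ) hy
  have h3 := (D.I k).add_mem h1 h2
  rwa [sub_add_cancel] at h3

/-- An eigenvector of `δ` with eigenvalue `j` lying in `I (j+1)` vanishes. -/
lemma eq_zero_of_δ {j : ℕ} {y : R} (hy : y ∈ D.I (j + 1)) (hδ : D.δ y = (j : ℂ) • y) : y = 0 := by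
  have key : ∀ m : ℕ, y ∈ D.I (j + 1 + m) := by
    intro m
    induction m with
    | zero => exact hy
    | succ m ih =>
      have h1 := D.δ_I _ y ih
      rw [hδ, ← sub_smul] at h1
      have h2 : ((j : ℂ) - ((j + 1 + m : ℕ) : ℂ)) ≠ 0 := by
        push_cast
        intro h
        have h3 : ((m + 1 : ℕ) : ℂ) = 0 := by
          push_cast
          linear_combination -h
        exact absurd h3 (by exact_mod_cast Nat.succ_ne_zero m)
      exact ((D.I _).smul_mem_iff h2).mp h1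
  have h := key (N + 1)
  rw [D.I_eq_bot (by omega)] at h
  exact (Submodule.mem_bot ℂ).mp h

lemma δ_inj {y : R} (hy : y ∈ D.I 1) (hδ : D.δ y = 0) : y = 0 :=
  D.eq_zero_of_δ (j := 0) (by simpa using hy) (by simpa using hδ)

/-- The iterated brackets in the generators. -/
def br : List Bool → R
  | [] => 0
  | [i] => D.X i
  | i :: j :: w => br (j :: w) * D.X i - D.X i * br (j :: w)

lemma br_nil : D.br [] = 0 := by unfold br; rfl

lemma br_single (i : Bool) : D.br [i] = D.X i := by unfold br; rfl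

lemma br_cons (i : Bool) {w : List Bool} (hw : w ≠ []) :
    D.br (i :: w) = D.br w * D.X i - D.X i * D.br w := by
  cases w with
  | nil => exact absurd rfl hw
  | cons j w => rw [br]

lemma br_mem (w : List Bool) : D.br w ∈ D.I w.length := by
  induction w with
  | nil => rw [br_nil]; exact (D.I _).zero_mem
  | cons i w ih =>
    by_cases hw : w = []
    · subst hw
      rw [br_single]
      exact D.X_mem i
    · rw [D.br_cons i hw, List.length_cons]
      refine (D.I _).sub_mem (D.I_mul ih (D.X_mem i)) ?_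
      rw [add_comm]
      exact D.I_mul (D.X_mem i) ih

lemma δ_br (w : List Bool) : D.δ (D.br w) = (w.length : ℂ) • D.br w := by
  induction w with
  | nil => rw [br_nil]; simp
  | cons i w ih =>
    by_cases hw : w = []
    · subst hw
      rw [br_single, D.δ_X]
      simp
    · rw [D.br_cons i hw, map_sub, D.δ_mul, D.δ_mul, ih, D.δ_X, List.length_cons]
      push_cast
      simp only [smul_mul_assoc, mul_smul_comm, add_smul, one_smul, smul_sub]
      abel

/-- The span of all brackets. -/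
def L : Submodule ℂ R := Submodule.span ℂ (Set.range D.br)

/-- The span of the brackets of length exactly `k`. -/
def Lk (k : ℕ) : Submodule ℂ R := Submodule.span ℂ (D.br '' {w | w.length = k})

/-- The span of the brackets of length at least `k`. -/
def Lge (k : ℕ) : Submodule ℂ R := Submodule.span ℂ (D.br '' {w | k ≤ w.length})

lemma br_mem_L (w : List Bool) : D.br w ∈ D.L := Submodule.subset_span ⟨w, rfl⟩

lemma L_eq_Lge : D.L = D.Lge 1 := by
  apply le_antisymm
  · refine Submodule.span_le.mpr ?_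
    rintro _ ⟨w, rfl⟩
    by_cases hw : w = []
    · subst hw
      rw [br_nil]
      exact (D.Lge 1).zero_mem
    · exact Submodule.subset_span ⟨w, List.length_pos_iff.mpr hw, rfl⟩
  · refine Submodule.span_mono ?_
    rintro _ ⟨w, _, rfl⟩
    exact ⟨w, rfl⟩

lemma Lge_eq (k : ℕ) : D.Lge k = D.Lk k ⊔ D.Lge (k + 1) := by
  unfold Lge Lk
  rw [← Submodule.span_union, ← Set.image_union]
  congr 2
  ext w
  simp only [Set.mem_ofPred_eq, Set.mem_union]
  omega

lemma Lge_le_I (k : ℕ) : D.Lge k ≤ D.I k := by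
  refine Submodule.span_le.mpr ?_
  rintro _ ⟨w, hw, rfl⟩
  exact D.I_le hw (D.br_mem w)

lemma Lk_le_I (k : ℕ) : D.Lk k ≤ D.I k := by
  refine Submodule.span_le.mpr ?_
  rintro _ ⟨w, hw, rfl⟩
  have hw' : w.length = k := hw
  rw [← hw']
  exact D.br_mem w

lemma δ_Lk {k : ℕ} {x : R} (hx : x ∈ D.Lk k) : D.δ x = (k : ℂ) • x := by
  refine Submodule.span_induction ?_ ?_ ?_ ?_ hx
  · rintro _ ⟨w, hw, rfl⟩
    have hw' : w.length = k := hw
    rw [D.δ_br, hw']
  · simp
  · intro x y _ _ h1 h2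
    rw [map_add, h1, h2, smul_add]
  · intro a x _ h1
    rw [map_smul, h1, smul_comm]

lemma L_le_I : D.L ≤ D.I 1 := by
  rw [L_eq_Lge]
  exact D.Lge_le_I 1

lemma δ_L {x : R} (hx : x ∈ D.L) : D.δ x ∈ D.L := by
  refine Submodule.span_induction ?_ ?_ ?_ ?_ hx
  · rintro _ ⟨w, rfl⟩
    rw [D.δ_br]
    exact D.L.smul_mem _ (D.br_mem_L w)
  · simp
  · intro x y _ _ h1 h2
    rw [map_add]
    exact D.L.add_mem h1 h2
  · intro a x _ h1
    rw [map_smul]
    exact D.L.smul_mem _ h1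

/-- Elements of `L` lying in `I k` (`k ≥ 1`) are spans of brackets of length at least `k`. -/
lemma L_inf_I {k : ℕ} (hk : 1 ≤ k) {x : R} (hx : x ∈ D.L) (hI : x ∈ D.I k) : x ∈ D.Lge k := by
  have key : ∀ j : ℕ, 1 ≤ j → j ≤ k → x ∈ D.Lge j := by
    intro j hj
    induction j, hj using Nat.le_induction with
    | base =>
      intro _
      rw [← L_eq_Lge]
      exact hx
    | succ j hj ih =>
      intro hjk
      have h1 := ih (by omega)
      rw [D.Lge_eq] at h1
      obtain ⟨a, ha, b, hb, hab⟩ := Submodule.mem_sup.mp h1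
      have ha0 : a = 0 := by
        refine D.eq_zero_of_δ (j := j) ?_ (D.δ_Lk ha)
        have : a = x - b := by rw [← hab]; abel
        rw [this]
        exact (D.I _).sub_mem (D.I_le hjk hI) (D.Lge_le_I _ hb)
      rw [ha0, zero_add] at hab
      rwa [← hab]
  exact key k hk le_rfl

/-- Leading term of an element of `L ∩ I k`. -/
lemma L_leading {k : ℕ} (hk : 1 ≤ k) {x : R} (hx : x ∈ D.L) (hI : x ∈ D.I k) :
    ∃ z ∈ D.Lk k, x - z ∈ D.I (k + 1) := by
  have h1 := D.L_inf_I hk hx hI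
  rw [D.Lge_eq] at h1
  obtain ⟨a, ha, b, hb, hab⟩ := Submodule.mem_sup.mp h1
  refine ⟨a, ha, ?_⟩
  have : x - a = b := by rw [← hab]; abel
  rw [this]
  exact D.Lge_le_I _ hb

/-- `L` is stable under brackets with the generators. -/
lemma L_bracket_X {x : R} (hx : x ∈ D.L) (i : Bool) : x * D.X i - D.X i * x ∈ D.L := by
  refine Submodule.span_induction ?_ ?_ ?_ ?_ hx
  · rintro _ ⟨w, rfl⟩
    by_cases hw : w = []
    · subst hw
      rw [br_nil]
      simp
    · rw [← D.br_cons i hw]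
      exact D.br_mem_L _
  · simp
  · intro x y _ _ h1 h2
    have := D.L.add_mem h1 h2
    convert this using 1
    noncomm_ring
  · intro a x _ h1
    have := D.L.smul_mem a h1
    convert this using 1
    rw [smul_sub, smul_mul_assoc, mul_smul_comm]

/-- The element `a X₀ + b X₁` of degree one. -/
def lin (a b : ℂ) : R := a • D.X false + b • D.X true

lemma lin_mem (a b : ℂ) : D.lin a b ∈ D.I 1 :=
  (D.I 1).add_mem ((D.I 1).smul_mem _ (D.X_mem _)) ((D.I 1).smul_mem _ (D.X_mem _))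

lemma lin_mem_L (a b : ℂ) : D.lin a b ∈ D.L := by
  have h0 : D.X false ∈ D.L := by rw [← D.br_single]; exact D.br_mem_L _
  have h1 : D.X true ∈ D.L := by rw [← D.br_single]; exact D.br_mem_L _
  exact D.L.add_mem (D.L.smul_mem _ h0) (D.L.smul_mem _ h1)

lemma δ_lin (a b : ℂ) : D.δ (D.lin a b) = D.lin a b := by
  unfold lin
  rw [map_add, map_smul, map_smul, D.δ_X, D.δ_X]

lemma L_bracket_lin {x : R} (hx : x ∈ D.L) (a b : ℂ) :
    x * D.lin a b - D.lin a b * x ∈ D.L := by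
  have h := D.L.add_mem (D.L.smul_mem a (D.L_bracket_X hx false))
    (D.L.smul_mem b (D.L_bracket_X hx true))
  convert h using 1
  unfold lin
  simp only [mul_add, add_mul, mul_smul_comm, smul_mul_assoc, smul_sub]
  abel

lemma pow_mem {x : R} (hx : x ∈ D.I 1) (n : ℕ) : x ^ n ∈ D.I n := by
  induction n with
  | zero => exact D.mem_I_zero _
  | succ n ih =>
    rw [pow_succ]
    exact D.I_mul ih hx

section Complete

variable [CompleteSpace R] [FiniteDimensional ℂ R]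

lemma exp_sub_one_mem {x : R} (hx : x ∈ D.I 1) : exp x - 1 ∈ D.I 1 :=
  Split.exp_sub_one_mem (D.I 1) x (fun n => D.I_le (by omega) (D.pow_mem hx (n + 1)))

lemma exp_sub_one_sub_mem {x : R} (hx : x ∈ D.I 1) : exp x - 1 - x ∈ D.I 2 :=
  Split.exp_sub_one_sub_mem (D.I 2) x (fun n => D.I_le (by omega) (D.pow_mem hx (n + 2)))

/-- The logarithmic derivative `g⁻¹ δ(g)`. -/
def κ (g : Rˣ) : R := ((g⁻¹ : Rˣ) : R) * D.δ (g : R)

lemma κ_mul (g h : Rˣ) : D.κ (g * h) = ((h⁻¹ : Rˣ) : R) * D.κ g * (h : R) + D.κ h := by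
  unfold κ
  rw [Units.val_mul, D.δ_mul, mul_inv_rev, Units.val_mul]
  have : ((g⁻¹ : Rˣ) : R) * (g : R) = 1 := Units.inv_mul g
  calc ((h⁻¹ : Rˣ) : R) * ((g⁻¹ : Rˣ) : R) * (D.δ (g : R) * (h : R) + (g : R) * D.δ (h : R))
      = ((h⁻¹ : Rˣ) : R) * (((g⁻¹ : Rˣ) : R) * D.δ (g : R)) * (h : R)
        + ((h⁻¹ : Rˣ) : R) * (((g⁻¹ : Rˣ) : R) * (g : R)) * D.δ (h : R) := by noncomm_ring
    _ = _ := by rw [this, mul_one]

lemma κ_one : D.κ 1 = 0 := by
  unfold κ
  rw [Units.val_one, D.δ_one, mul_zero]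

lemma κ_inv (g : Rˣ) : D.κ g⁻¹ = -((g : R) * D.κ g * ((g⁻¹ : Rˣ) : R)) := by
  have h := D.κ_mul g g⁻¹
  rw [mul_inv_cancel, D.κ_one, inv_inv] at h
  rw [eq_neg_iff_add_eq_zero, add_comm]
  exact h.symm

/-- The subgroup of all units `g ∈ 1 + I 1` with `g⁻¹ δ(g) ∈ L` normalising `L`. -/
def G : Subgroup Rˣ where
  carrier := {g | D.κ g ∈ D.L ∧ (∀ y ∈ D.L, ((g⁻¹ : Rˣ) : R) * y * (g : R) ∈ D.L) ∧
    (∀ y ∈ D.L, (g : R) * y * ((g⁻¹ : Rˣ) : R) ∈ D.L) ∧ (g : R) - 1 ∈ D.I 1}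
  mul_mem' := by
    rintro g h ⟨hg1, hg2, hg3, hg4⟩ ⟨hh1, hh2, hh3, hh4⟩
    refine ⟨?_, ?_, ?_, ?_⟩
    · rw [D.κ_mul]
      exact D.L.add_mem (hh2 _ hg1) hh1
    · intro y hy
      rw [mul_inv_rev, Units.val_mul, Units.val_mul]
      have := hh2 _ (hg2 _ hy)
      convert this using 1
      noncomm_ring
    · intro y hy
      rw [mul_inv_rev, Units.val_mul, Units.val_mul]
      have := hg3 _ (hh3 _ hy)
      convert this using 1
      noncomm_ring
    · rw [Units.val_mul]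
      have h1 : (g : R) * (h : R) - 1 = ((g : R) - 1) * (h : R) + ((h : R) - 1) := by noncomm_ring
      rw [h1]
      exact (D.I 1).add_mem (D.mul_mem_right _ hg4) hh4
  one_mem' := by
    refine ⟨?_, ?_, ?_, ?_⟩
    · rw [D.κ_one]
      exact D.L.zero_mem
    · intro y hy
      simpa using hy
    · intro y hy
      simpa using hy
    · simp
  inv_mem' := by
    rintro g ⟨hg1, hg2, hg3, hg4⟩
    refine ⟨?_, ?_, ?_, ?_⟩
    · rw [D.κ_inv]
      exact D.L.neg_mem (hg3 _ hg1)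
    · intro y hy
      rw [inv_inv]
      exact hg3 y hy
    · intro y hy
      rw [inv_inv]
      exact hg2 y hy
    · have h1 : ((g⁻¹ : Rˣ) : R) - 1 = -(((g⁻¹ : Rˣ) : R) * ((g : R) - 1)) := by
        rw [mul_sub, Units.inv_mul, mul_one]
        abel
      rw [h1]
      exact (D.I 1).neg_mem (D.mul_mem_left _ hg4)

lemma G_κ {g : Rˣ} (hg : g ∈ D.G) : D.κ g ∈ D.L := hg.1
lemma G_conj {g : Rˣ} (hg : g ∈ D.G) {y : R} (hy : y ∈ D.L) :
    ((g⁻¹ : Rˣ) : R) * y * (g : R) ∈ D.L := hg.2.1 y hy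
lemma G_conj' {g : Rˣ} (hg : g ∈ D.G) {y : R} (hy : y ∈ D.L) :
    (g : R) * y * ((g⁻¹ : Rˣ) : R) ∈ D.L := hg.2.2.1 y hy
lemma G_sub {g : Rˣ} (hg : g ∈ D.G) : (g : R) - 1 ∈ D.I 1 := hg.2.2.2

lemma uexp_lin_mem_G (a b : ℂ) : uexp (D.lin a b) ∈ D.G := by
  refine ⟨?_, ?_, ?_, ?_⟩
  · unfold κ
    rw [uexp_val, derivation_exp D.δ D.δ_mul _ (D.δ_lin a b), ← mul_assoc, uexp_inv_val,
      exp_neg_mul_exp, one_mul]
    exact D.lin_mem_L a b
  · intro y hy
    rw [uexp_inv_val, uexp_val]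
    exact conj_exp_mem D.L _ (fun y hy => D.L_bracket_lin hy a b) y hy
  · intro y hy
    rw [uexp_inv_val, uexp_val]
    have := conj_exp_mem D.L (-(D.lin a b)) (fun y hy => by
      have h1 := D.L.neg_mem (D.L_bracket_lin hy a b)
      convert h1 using 1
      noncomm_ring) y hy
    rwa [neg_neg] at this
  · exact D.exp_sub_one_mem (D.lin_mem a b)

lemma uexp_X_mem_G (a : ℂ) (i : Bool) : uexp (a • D.X i) ∈ D.G := by
  cases i with
  | false =>
    have : a • D.X false = D.lin a 0 := by unfold lin; simp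
    rw [this]
    exact D.uexp_lin_mem_G _ _
  | true =>
    have : a • D.X true = D.lin 0 a := by unfold lin; simp
    rw [this]
    exact D.uexp_lin_mem_G _ _

/-- The logarithmic derivative separates the elements of `G`. -/
lemma κ_inj {g h : Rˣ} (hg : g ∈ D.G) (hh : h ∈ D.G) (hκ : D.κ g = D.κ h) : g = h := by
  have h1 : D.κ (g * h⁻¹) = 0 := by
    rw [D.κ_mul, D.κ_inv, hκ, inv_inv]
    abel
  have h2 : D.δ ((g * h⁻¹ : Rˣ) : R) = 0 := by
    unfold κ at h1
    have h3 : ((g * h⁻¹ : Rˣ) : R) * ((((g * h⁻¹)⁻¹ : Rˣ) : R) * D.δ ((g * h⁻¹ : Rˣ) : R)) = 0 := by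
      rw [h1, mul_zero]
    rwa [← mul_assoc, Units.mul_inv, one_mul] at h3
  have h3 : ((g * h⁻¹ : Rˣ) : R) - 1 = 0 := by
    refine D.δ_inj (D.G_sub (D.G.mul_mem hg (D.G.inv_mem hh))) ?_
    rw [map_sub, h2, D.δ_one, sub_zero]
  have h4 : g * h⁻¹ = 1 := by
    ext
    rw [Units.val_one]
    exact sub_eq_zero.mp h3
  exact mul_inv_eq_one.mp h4

/-- Leading terms of elements of `G` are combinations of brackets. -/
lemma G_leading {k : ℕ} (hk : 1 ≤ k) {g : Rˣ} (hg : g ∈ D.G) (hgk : (g : R) - 1 ∈ D.I k) :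
    ∃ z ∈ D.Lk k, (g : R) - 1 - z ∈ D.I (k + 1) := by
  have hδg : D.δ (g : R) = D.δ ((g : R) - 1) := by rw [map_sub, D.δ_one, sub_zero]
  have h1 : D.δ (g : R) - (k : ℂ) • ((g : R) - 1) ∈ D.I (k + 1) := by
    rw [hδg]
    exact D.δ_I k _ hgk
  have h2 : D.δ (g : R) ∈ D.I k := by
    rw [hδg]
    exact D.δ_mem hgk
  have h3 : D.κ g - D.δ (g : R) ∈ D.I (k + 1) := by
    have h4 : D.κ g - D.δ (g : R) = (((g⁻¹ : Rˣ) : R) - 1) * D.δ (g : R) := by
      unfold κ
      noncomm_ring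
    rw [h4, add_comm]
    exact D.I_mul (D.G_sub (D.G.inv_mem hg)) h2
  have h5 : D.κ g - (k : ℂ) • ((g : R) - 1) ∈ D.I (k + 1) := by
    have := (D.I _).add_mem h3 h1
    rwa [sub_add_sub_cancel] at this
  have h6 : D.κ g ∈ D.I k := by
    have := (D.I k).add_mem (D.I_succ_le k h5) ((D.I k).smul_mem (k : ℂ) hgk)
    rwa [sub_add_cancel] at this
  obtain ⟨z, hz, hz'⟩ := D.L_leading hk (D.G_κ hg) h6
  have hk0 : (k : ℂ) ≠ 0 := by exact_mod_cast (by omega : k ≠ 0)
  refine ⟨(k : ℂ)⁻¹ • z, (D.Lk k).smul_mem _ hz, ?_⟩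
  have h7 : (k : ℂ) • ((g : R) - 1 - (k : ℂ)⁻¹ • z) ∈ D.I (k + 1) := by
    rw [smul_sub, smul_smul, mul_inv_cancel₀ hk0, one_smul]
    have h8 := (D.I _).sub_mem hz' h5
    have h9 : D.κ g - z - (D.κ g - (k : ℂ) • ((g : R) - 1)) = (k : ℂ) • ((g : R) - 1) - z := by abel
    rwa [h9] at h8
  exact ((D.I _).smul_mem_iff hk0).mp h7

end Complete

end Data

end Pool.Agent.Lib.Helper28.Split

end
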