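import Mathlib
import Pool.Agent.Lib.Helper28.Split.Filt

/-!
# Products of exponentials with coefficients in the closed right half-plane

Main result: every element of the group `G` whose degree-one part is `a X₀ + b X₁` with
`Re a, Re b > 0` is a product of exponentials of multiples of `X₀`, `X₁` with coefficients in the
closed right half-plane.
-/

open NormedSpace Filter Topology

set_option linter.unusedSectionVars false

noncomputable section

namespace Pool.Agent.Lib.Helper28.Split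

namespace Data

variable {R : Type*} [NormedRing R] [NormedAlgebra ℂ R] {N : ℕ} (D : Data R N)
variable [CompleteSpace R] [FiniteDimensional ℂ R]

/-- Product of exponentials along a list of letters and coefficients. -/
def pr (l : List (Bool × ℂ)) : Rˣ := (l.map (fun p => uexp (p.2 • D.X p.1))).prod

lemma pr_nil : D.pr [] = 1 := rfl

lemma pr_cons (p : Bool × ℂ) (l : List (Bool × ℂ)) :
    D.pr (p :: l) = uexp (p.2 • D.X p.1) * D.pr l := by
  unfold pr
  rw [List.map_cons, List.prod_cons]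

lemma pr_append (l l' : List (Bool × ℂ)) : D.pr (l ++ l') = D.pr l * D.pr l' := by
  unfold pr
  rw [List.map_append, List.prod_append]

lemma pr_mem_G (l : List (Bool × ℂ)) : D.pr l ∈ D.G := by
  induction l with
  | nil => exact D.G.one_mem
  | cons p l ih =>
    rw [pr_cons]
    exact D.G.mul_mem (D.uexp_X_mem_G _ _) ih

/-- Products with coefficients in the closed right half-plane. -/
def S0 : Set Rˣ := {g | ∃ l : List (Bool × ℂ), (∀ p ∈ l, 0 ≤ p.2.re) ∧ D.pr l = g}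

/-- Products with coefficients in the open right half-plane. -/
def S : Set Rˣ := {g | ∃ l : List (Bool × ℂ), (∀ p ∈ l, 0 < p.2.re) ∧ D.pr l = g}

/-- Products with purely imaginary coefficients. -/
def H : Set Rˣ := {g | ∃ l : List (Bool × ℂ), (∀ p ∈ l, p.2.re = 0) ∧ D.pr l = g}

lemma S0_mul {g h : Rˣ} (hg : g ∈ D.S0) (hh : h ∈ D.S0) : g * h ∈ D.S0 := by
  obtain ⟨l, hl, rfl⟩ := hg
  obtain ⟨l', hl', rfl⟩ := hh
  refine ⟨l ++ l', ?_, D.pr_append l l'⟩
  intro p hp
  rcases List.mem_append.mp hp with h | h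
  · exact hl p h
  · exact hl' p h

lemma S_mul {g h : Rˣ} (hg : g ∈ D.S) (hh : h ∈ D.S) : g * h ∈ D.S := by
  obtain ⟨l, hl, rfl⟩ := hg
  obtain ⟨l', hl', rfl⟩ := hh
  refine ⟨l ++ l', ?_, D.pr_append l l'⟩
  intro p hp
  rcases List.mem_append.mp hp with h | h
  · exact hl p h
  · exact hl' p h

lemma H_mul {g h : Rˣ} (hg : g ∈ D.H) (hh : h ∈ D.H) : g * h ∈ D.H := by
  obtain ⟨l, hl, rfl⟩ := hg
  obtain ⟨l', hl', rfl⟩ := hh
  refine ⟨l ++ l', ?_, D.pr_append l l'⟩
  intro p hp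
  rcases List.mem_append.mp hp with h | h
  · exact hl p h
  · exact hl' p h

lemma S0_exp {a : ℂ} (ha : 0 ≤ a.re) (i : Bool) : uexp (a • D.X i) ∈ D.S0 := by
  refine ⟨[(i, a)], ?_, ?_⟩
  · intro p hp
    rw [List.mem_singleton.mp hp]
    exact ha
  · rw [pr_cons, pr_nil, mul_one]

lemma S_exp {a : ℂ} (ha : 0 < a.re) (i : Bool) : uexp (a • D.X i) ∈ D.S := by
  refine ⟨[(i, a)], ?_, ?_⟩
  · intro p hp
    rw [List.mem_singleton.mp hp]
    exact ha
  · rw [pr_cons, pr_nil, mul_one]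

lemma H_exp {a : ℂ} (ha : a.re = 0) (i : Bool) : uexp (a • D.X i) ∈ D.H := by
  refine ⟨[(i, a)], ?_, ?_⟩
  · intro p hp
    rw [List.mem_singleton.mp hp]
    exact ha
  · rw [pr_cons, pr_nil, mul_one]

lemma H_sub_S0 {g : Rˣ} (hg : g ∈ D.H) : g ∈ D.S0 := by
  obtain ⟨l, hl, rfl⟩ := hg
  exact ⟨l, fun p hp => (hl p hp).ge, rfl⟩

lemma S_sub_G {g : Rˣ} (hg : g ∈ D.S) : g ∈ D.G := by
  obtain ⟨l, _, rfl⟩ := hg
  exact D.pr_mem_G l

lemma H_sub_G {g : Rˣ} (hg : g ∈ D.H) : g ∈ D.G := by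
  obtain ⟨l, _, rfl⟩ := hg
  exact D.pr_mem_G l

lemma H_inv {g : Rˣ} (hg : g ∈ D.H) : g⁻¹ ∈ D.H := by
  obtain ⟨l, hl, rfl⟩ := hg
  induction l with
  | nil =>
    rw [pr_nil, inv_one]
    exact ⟨[], by simp, rfl⟩
  | cons p l ih =>
    rw [pr_cons, mul_inv_rev, uexp_inv, ← neg_smul]
    refine D.H_mul (ih (fun q hq => hl q (List.mem_cons_of_mem _ hq))) (D.H_exp ?_ _)
    rw [Complex.neg_re, hl p List.mem_cons_self, neg_zero]

/-! ### Congruences modulo the filtration -/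

/-- `v = 1 + p` modulo `I (k+1)` with `p ∈ I k`, `k ≥ 1`, implies `v⁻¹ = 1 - p`. -/
lemma inv_congr {k : ℕ} {v : Rˣ} {p : R} (hk : 1 ≤ k) (hp : p ∈ D.I k)
    (hv : (v : R) - 1 - p ∈ D.I (k + 1)) : ((v⁻¹ : Rˣ) : R) - 1 + p ∈ D.I (k + 1) := by
  have hv1 : (v : R) - 1 ∈ D.I k := by
    have := (D.I k).add_mem (D.I_succ_le k hv) hp
    rwa [sub_add_cancel] at this
  have hvi : ((v⁻¹ : Rˣ) : R) - 1 ∈ D.I k := by
    have h1 : ((v⁻¹ : Rˣ) : R) - 1 = -(((v⁻¹ : Rˣ) : R) * ((v : R) - 1)) := by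
      rw [mul_sub, Units.inv_mul, mul_one]
      abel
    rw [h1]
    exact (D.I k).neg_mem (D.mul_mem_left _ hv1)
  have h2 : ((v⁻¹ : Rˣ) : R) - 1 + p
      = -(((v⁻¹ : Rˣ) : R) * ((v : R) - 1 - p)) - (((v⁻¹ : Rˣ) : R) - 1) * p := by
    have h3 : ((v⁻¹ : Rˣ) : R) * (v : R) = 1 := Units.inv_mul v
    have h4 : -(((v⁻¹ : Rˣ) : R) * ((v : R) - 1 - p)) - (((v⁻¹ : Rˣ) : R) - 1) * p
        = -(((v⁻¹ : Rˣ) : R) * (v : R)) + ((v⁻¹ : Rˣ) : R) + p := by noncomm_ring
    rw [h4, h3]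
    abel
  rw [h2]
  refine (D.I _).sub_mem ((D.I _).neg_mem (D.mul_mem_left _ hv)) ?_
  exact D.I_le (by omega) (D.I_mul hvi hp)

/-- Conjugation does not change the leading term. -/
lemma conj_congr {k : ℕ} {v e : Rˣ} {p : R} (hp : p ∈ D.I k)
    (hv : (v : R) - 1 - p ∈ D.I (k + 1)) (he : (e : R) - 1 ∈ D.I 1) :
    ((e⁻¹ * v * e : Rˣ) : R) - 1 - p ∈ D.I (k + 1) := by
  rw [Units.val_mul, Units.val_mul]
  have h3 : ((e⁻¹ : Rˣ) : R) * (e : R) = 1 := Units.inv_mul e
  have h5 : ((e⁻¹ : Rˣ) : R) * p * (e : R) - p = ((e⁻¹ : Rˣ) : R) * (p * ((e : R) - 1)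
      - ((e : R) - 1) * p) := by
    have h6 : ((e⁻¹ : Rˣ) : R) * (p * ((e : R) - 1) - ((e : R) - 1) * p)
        = ((e⁻¹ : Rˣ) : R) * p * (e : R) - (((e⁻¹ : Rˣ) : R) * (e : R)) * p := by noncomm_ring
    rw [h6, h3, one_mul]
  have h4 : ((e⁻¹ : Rˣ) : R) * (v : R) * (e : R) - 1 - p
      = ((e⁻¹ : Rˣ) : R) * ((v : R) - 1 - p) * (e : R)
        + (((e⁻¹ : Rˣ) : R) * p * (e : R) - p) := by
    have h6 : ((e⁻¹ : Rˣ) : R) * ((v : R) - 1 - p) * (e : R)
        = ((e⁻¹ : Rˣ) : R) * (v : R) * (e : R) - ((e⁻¹ : Rˣ) : R) * (e : R)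
          - ((e⁻¹ : Rˣ) : R) * p * (e : R) := by noncomm_ring
    rw [h6, h3]
    abel
  rw [h4, h5]
  refine (D.I _).add_mem (D.mul_mem_right _ (D.mul_mem_left _ hv)) (D.mul_mem_left _ ?_)
  refine (D.I _).sub_mem (D.I_mul hp he) ?_
  rw [add_comm]
  exact D.I_mul he hp

/-- Product of congruences. -/
lemma mul_congr {k : ℕ} {g u : Rˣ} {p q : R} (hp : p ∈ D.I k)
    (hg : (g : R) - 1 - p ∈ D.I (k + 1)) (hu : (u : R) - 1 ∈ D.I 1)
    (huq : (u : R) - 1 - q ∈ D.I (k + 1)) :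
    ((g * u : Rˣ) : R) - 1 - (p + q) ∈ D.I (k + 1) := by
  rw [Units.val_mul]
  have h1 : (g : R) * (u : R) - 1 - (p + q)
      = ((g : R) - 1 - p) * (u : R) + p * ((u : R) - 1) + ((u : R) - 1 - q) := by noncomm_ring
  rw [h1]
  exact (D.I _).add_mem ((D.I _).add_mem (D.mul_mem_right _ hg) (D.I_mul hp hu)) huq

lemma mul_congr' {k : ℕ} {g u : Rˣ} {p q : R} (hp : p ∈ D.I k)
    (hg : (g : R) - 1 - p ∈ D.I (k + 1)) (hu : (u : R) - 1 ∈ D.I 1)
    (huq : (u : R) - 1 - q ∈ D.I (k + 1)) :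
    ((u * g : Rˣ) : R) - 1 - (p + q) ∈ D.I (k + 1) := by
  rw [Units.val_mul]
  have h1 : (u : R) * (g : R) - 1 - (p + q)
      = (u : R) * ((g : R) - 1 - p) + ((u : R) - 1) * p + ((u : R) - 1 - q) := by noncomm_ring
  rw [h1]
  refine (D.I _).add_mem ((D.I _).add_mem (D.mul_mem_left _ hg) ?_) huq
  rw [add_comm]
  exact D.I_mul hu hp

/-- Group commutator with an exponential. -/
lemma comm_congr {m : ℕ} {h : Rˣ} {p : R} (hm : 1 ≤ m) (hp : p ∈ D.I m)
    (hh : (h : R) - 1 - p ∈ D.I (m + 1)) (a : ℂ) (i : Bool) :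
    ((h * uexp (a • D.X i) * h⁻¹ * (uexp (a • D.X i))⁻¹ : Rˣ) : R) - 1
      - a • (p * D.X i - D.X i * p) ∈ D.I (m + 2) := by
  set e := uexp (a • D.X i) with he
  have hX : a • D.X i ∈ D.I 1 := (D.I 1).smul_mem _ (D.X_mem i)
  have he1 : (e : R) - 1 ∈ D.I 1 := D.exp_sub_one_mem hX
  have he2 : (e : R) - 1 - a • D.X i ∈ D.I 2 := D.exp_sub_one_sub_mem hX
  have hh1 : (h : R) - 1 ∈ D.I m := by
    have := (D.I m).add_mem (D.I_succ_le m hh) hp
    rwa [sub_add_cancel] at this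
  -- the additive commutator
  have hc : (h : R) * (e : R) - (e : R) * (h : R) - a • (p * D.X i - D.X i * p) ∈ D.I (m + 2) := by
    have h1 : (h : R) * (e : R) - (e : R) * (h : R) - a • (p * D.X i - D.X i * p)
        = (((h : R) - 1 - p) * ((e : R) - 1) - ((e : R) - 1) * ((h : R) - 1 - p))
          + (p * ((e : R) - 1 - a • D.X i) - ((e : R) - 1 - a • D.X i) * p) := by
      have h2 : a • (p * D.X i - D.X i * p) = p * (a • D.X i) - (a • D.X i) * p := by
        rw [mul_smul_comm, smul_mul_assoc, smul_sub]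
      rw [h2]
      noncomm_ring
    rw [h1]
    refine (D.I _).add_mem ((D.I _).sub_mem ?_ ?_) ((D.I _).sub_mem ?_ ?_)
    · have := D.I_mul hh he1
      exact D.I_le (by omega) this
    · have := D.I_mul he1 hh
      exact D.I_le (by omega) this
    · exact D.I_mul hp he2
    · have := D.I_mul he2 hp
      exact D.I_le (by omega) this
  set w : R := a • (p * D.X i - D.X i * p) with hw
  have hwm : w ∈ D.I (m + 1) := by
    refine (D.I _).smul_mem _ ((D.I _).sub_mem (D.I_mul hp (D.X_mem i)) ?_)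
    rw [add_comm]
    exact D.I_mul (D.X_mem i) hp
  have hhinv : ((h⁻¹ * e⁻¹ : Rˣ) : R) - 1 ∈ D.I 1 := by
    have h1 : ((h⁻¹ * e⁻¹ : Rˣ) : R) - 1 = -(((h⁻¹ * e⁻¹ : Rˣ) : R) * ((e * h : Rˣ) - 1)) := by
      have h2 : ((h⁻¹ * e⁻¹ : Rˣ) : R) * ((e * h : Rˣ) : R) = 1 := by
        rw [← Units.val_mul]
        have : h⁻¹ * e⁻¹ * (e * h) = 1 := by group
        rw [this, Units.val_one]
      rw [mul_sub, h2, mul_one]
      abel
    rw [h1]
    refine (D.I 1).neg_mem (D.mul_mem_left _ ?_)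
    have h3 : ((e * h : Rˣ) : R) - 1 = ((e : R) - 1) * (h : R) + ((h : R) - 1) := by
      rw [Units.val_mul]
      noncomm_ring
    rw [h3]
    exact (D.I 1).add_mem (D.mul_mem_right _ he1) (D.I_le hm hh1)
  have hfin : ((h * e * h⁻¹ * e⁻¹ : Rˣ) : R) - 1 - w
      = ((h : R) * (e : R) - (e : R) * (h : R) - w) * ((h⁻¹ * e⁻¹ : Rˣ) : R)
        + w * (((h⁻¹ * e⁻¹ : Rˣ) : R) - 1) := by
    have h2 : (e : R) * (h : R) * ((h⁻¹ * e⁻¹ : Rˣ) : R) = 1 := by
      rw [← Units.val_mul, ← Units.val_mul]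
      have : e * h * (h⁻¹ * e⁻¹) = 1 := by group
      rw [this, Units.val_one]
    have h3 : ((h * e * h⁻¹ * e⁻¹ : Rˣ) : R) = (h : R) * (e : R) * ((h⁻¹ * e⁻¹ : Rˣ) : R) := by
      rw [← Units.val_mul, ← Units.val_mul, mul_assoc (h * e)]
    rw [h3]
    have h4 : ((h : R) * (e : R) - (e : R) * (h : R) - w) * ((h⁻¹ * e⁻¹ : Rˣ) : R)
        + w * (((h⁻¹ * e⁻¹ : Rˣ) : R) - 1)
        = (h : R) * (e : R) * ((h⁻¹ * e⁻¹ : Rˣ) : R)
          - (e : R) * (h : R) * ((h⁻¹ * e⁻¹ : Rˣ) : R) - w := by noncomm_ring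
    rw [h4, h2]
  rw [hfin]
  have h5 := D.I_mul hwm hhinv
  exact (D.I _).add_mem (D.mul_mem_right _ hc) (D.I_le (by omega) h5)

/-- For every bracket there is an element of `H` with that leading term, up to the factor
`I ^ length * y` with `y` any real number. -/
lemma exists_H (w : List Bool) (hw : w ≠ []) (y : ℝ) :
    ∃ h ∈ D.H, (h : R) - 1 - (Complex.I ^ w.length * (y : ℂ)) • D.br w ∈ D.I (w.length + 1) := by
  induction w with
  | nil => exact absurd rfl hw
  | cons i w ih =>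
    by_cases hw' : w = []
    · subst hw'
      refine ⟨uexp ((Complex.I * (y : ℂ)) • D.X i), D.H_exp (by simp) i, ?_⟩
      rw [br_single, List.length_singleton, pow_one]
      exact D.exp_sub_one_sub_mem ((D.I 1).smul_mem _ (D.X_mem i))
    · obtain ⟨h, hh, hh'⟩ := ih hw'
      refine ⟨h * uexp (Complex.I • D.X i) * h⁻¹ * (uexp (Complex.I • D.X i))⁻¹, ?_, ?_⟩
      · have h1 : uexp (Complex.I • D.X i) ∈ D.H := D.H_exp (by simp) i
        exact D.H_mul (D.H_mul (D.H_mul hh h1) (D.H_inv hh)) (D.H_inv h1)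
      · have hlen : 1 ≤ w.length := List.length_pos_iff.mpr hw'
        have h1 := D.comm_congr hlen ((D.I _).smul_mem _ (D.br_mem w)) hh' Complex.I i
        rw [List.length_cons, D.br_cons i hw']
        convert h1 using 2
        rw [smul_mul_assoc, mul_smul_comm, ← smul_sub, smul_smul, pow_succ]
        congr 1
        ring

/-- The property proved by downward induction. -/
def Q (k : ℕ) : Prop := ∀ u ∈ D.G, (u : R) - 1 ∈ D.I k → ∀ s t : ℝ, 0 < s → 0 < t →
  uexp ((s : ℂ) • D.X false) * u * uexp ((t : ℂ) • D.X true) ∈ D.S0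

/-- The same property for elements with a prescribed leading term `z` in degree `k`. -/
def QQ (k : ℕ) (z : R) : Prop := ∀ u ∈ D.G, (u : R) - 1 - z ∈ D.I (k + 1) → ∀ s t : ℝ, 0 < s →
  0 < t → uexp ((s : ℂ) • D.X false) * u * uexp ((t : ℂ) • D.X true) ∈ D.S0

lemma exists_coeff (c ω : ℂ) (hω : ω ≠ 0) (η : ℝ) (hη : 0 < η) :
    ∃ (y : ℝ) (α : ℂ), 0 ≤ α.re ∧ α.re < η ∧ α * (ω * (y : ℂ)) = c := by
  set α0 : ℂ := c * ω⁻¹ with hα0
  have hc : α0 * ω = c := by
    rw [hα0, mul_assoc, inv_mul_cancel₀ hω, mul_one]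
  set Y : ℝ := (|α0.re| + 1) / η with hY
  have hYpos : 0 < Y := by positivity
  have hYne : (Y : ℂ) ≠ 0 := by exact_mod_cast hYpos.ne'
  have hbound : |α0.re| / Y < η := by
    rw [hY, div_lt_iff₀ (by positivity), mul_comm, div_mul_cancel₀ _ hη.ne']
    linarith
  rcases le_total 0 α0.re with h | h
  · refine ⟨Y, α0 / Y, ?_, ?_, ?_⟩
    · rw [Complex.div_ofReal_re]
      positivity
    · rw [Complex.div_ofReal_re]
      rwa [abs_of_nonneg h] at hbound
    · rw [← hc]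
      field_simp
  · refine ⟨-Y, -α0 / Y, ?_, ?_, ?_⟩
    · rw [Complex.div_ofReal_re, Complex.neg_re]
      have : 0 ≤ -α0.re := by linarith
      positivity
    · rw [Complex.div_ofReal_re, Complex.neg_re]
      rwa [abs_of_nonpos h] at hbound
    · rw [← hc]
      push_cast
      field_simp

/-- Adding a multiple of one bracket to the prescribed leading term. -/
lemma QQ_step {k : ℕ} (hk : 2 ≤ k) (w : List Bool) (hw : w.length = k) (c : ℂ) (z : R)
    (hQ : D.QQ k z) : D.QQ k (z + c • D.br w) := by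
  obtain ⟨i, w1, rfl⟩ : ∃ i w1, w = i :: w1 := by
    cases w with
    | nil => simp at hw; omega
    | cons i w1 => exact ⟨i, w1, rfl⟩
  have hw1 : w1 ≠ [] := by
    rintro rfl
    simp at hw
    omega
  have hlen : w1.length + 1 = k := by simpa using hw
  have hlen1 : 1 ≤ w1.length := List.length_pos_iff.mpr hw1
  intro u hu huz s t hs ht
  have hu1 : (u : R) - 1 ∈ D.I 1 := D.G_sub hu
  set η : ℝ := if i = true then t else s with hηdef
  have hη : 0 < η := by
    rw [hηdef]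
    split_ifs <;> assumption
  obtain ⟨y, α, hα0, hα1, hα⟩ := exists_coeff c (Complex.I ^ w1.length)
    (pow_ne_zero _ Complex.I_ne_zero) η hη
  obtain ⟨h, hh, hh'⟩ := D.exists_H w1 hw1 y
  have hhG := D.H_sub_G hh
  set b := D.br (i :: w1) with hb
  have hbk : b ∈ D.I k := by
    rw [← hw]
    exact D.br_mem _
  -- the basic commutators
  have hcomm : ∀ a : ℂ, ((h * uexp (a • D.X i) * h⁻¹ * (uexp (a • D.X i))⁻¹ : Rˣ) : R) - 1
      - (a * (Complex.I ^ w1.length * (y : ℂ))) • b ∈ D.I (k + 1) := by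
    intro a
    have h1 := D.comm_congr hlen1 ((D.I _).smul_mem _ (D.br_mem w1)) hh' a i
    rw [show w1.length + 2 = k + 1 by omega] at h1
    convert h1 using 2
    rw [hb, D.br_cons i hw1, smul_mul_assoc, mul_smul_comm, ← smul_sub, smul_smul]
  cases i with
  | false =>
    have hηs : η = s := by simp [hηdef]
    rw [hηs] at hα1
    set e := uexp ((s : ℂ) • D.X false) with he
    set v := h * uexp (α • D.X false) * h⁻¹ * (uexp (α • D.X false))⁻¹ with hv
    have hv1 : (v : R) - 1 - c • b ∈ D.I (k + 1) := by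
      have := hcomm α
      rwa [hα] at this
    have hvinv : ((v⁻¹ : Rˣ) : R) - 1 - (-(c • b)) ∈ D.I (k + 1) := by
      rw [sub_neg_eq_add]
      exact D.inv_congr (by omega) ((D.I _).smul_mem _ hbk) hv1
    have heG : e ∈ D.G := D.uexp_X_mem_G _ _
    have hαG : uexp (α • D.X false) ∈ D.G := D.uexp_X_mem_G _ _
    have hvG : v ∈ D.G :=
      D.G.mul_mem (D.G.mul_mem (D.G.mul_mem hhG hαG) (D.G.inv_mem hhG)) (D.G.inv_mem hαG)
    set u' := e⁻¹ * v⁻¹ * e * u with hu'
    have hu'G : u' ∈ D.G :=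
      D.G.mul_mem (D.G.mul_mem (D.G.mul_mem (D.G.inv_mem heG) (D.G.inv_mem hvG)) heG) hu
    have hu'z : (u' : R) - 1 - z ∈ D.I (k + 1) := by
      have h1 := D.conj_congr ((D.I _).neg_mem ((D.I _).smul_mem c hbk)) hvinv (D.G_sub heG)
      have h2 := D.mul_congr ((D.I _).neg_mem ((D.I _).smul_mem c hbk)) h1 hu1 huz
      have h3 : -(c • b) + (z + c • b) = z := by abel
      rwa [h3] at h2
    set s' : ℝ := (s - α.re) / 2 with hs'
    have hs'pos : 0 < s' := by rw [hs']; linarith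
    have hmem := hQ u' hu'G hu'z s' t hs'pos ht
    have hdec : e * u * uexp ((t : ℂ) • D.X true)
        = h * uexp (α • D.X false) * h⁻¹ * uexp (((s : ℂ) - α - (s' : ℂ)) • D.X false)
          * (uexp ((s' : ℂ) • D.X false) * u' * uexp ((t : ℂ) • D.X true)) := by
      have h1 : e = uexp (α • D.X false) * uexp (((s : ℂ) - α - (s' : ℂ)) • D.X false)
          * uexp ((s' : ℂ) • D.X false) := by
        rw [← uexp_add_smul, ← uexp_add_smul, he]
        congr 2
        ring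
      have h2 : uexp (((s : ℂ) - α - (s' : ℂ)) • D.X false) * uexp ((s' : ℂ) • D.X false)
          = (uexp (α • D.X false))⁻¹ * e := by
        rw [h1]
        group
      have h3 : h * uexp (α • D.X false) * h⁻¹ * uexp (((s : ℂ) - α - (s' : ℂ)) • D.X false)
          * (uexp ((s' : ℂ) • D.X false) * u' * uexp ((t : ℂ) • D.X true))
          = h * uexp (α • D.X false) * h⁻¹ * (uexp (((s : ℂ) - α - (s' : ℂ)) • D.X false)
          * uexp ((s' : ℂ) • D.X false)) * u' * uexp ((t : ℂ) • D.X true) := by group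
      rw [h3, h2, hu', hv]
      group
    rw [hdec]
    refine D.S0_mul (D.S0_mul (D.S0_mul (D.S0_mul (D.H_sub_S0 hh) (D.S0_exp hα0 _))
      (D.H_sub_S0 (D.H_inv hh))) (D.S0_exp ?_ _)) hmem
    rw [Complex.sub_re, Complex.sub_re, Complex.ofReal_re, Complex.ofReal_re, hs']
    linarith
  | true =>
    have hηt : η = t := by simp [hηdef]
    rw [hηt] at hα1
    set e := uexp ((t : ℂ) • D.X true) with he
    set v := h * uexp (α • D.X true) * h⁻¹ * (uexp (α • D.X true))⁻¹ with hv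
    -- here we use the inverse of the commutator for `-α`
    set v' := h * (uexp (α • D.X true))⁻¹ * h⁻¹ * uexp (α • D.X true) with hv'
    have hv1 : (v' : R) - 1 - (-(c • b)) ∈ D.I (k + 1) := by
      have := hcomm (-α)
      rw [neg_mul, hα, neg_smul, neg_smul] at this
      have h1 : uexp (-(α • D.X true)) = (uexp (α • D.X true))⁻¹ := (uexp_inv _).symm
      rw [h1, inv_inv] at this
      exact this
    have heG : e ∈ D.G := D.uexp_X_mem_G _ _
    have hαG : uexp (α • D.X true) ∈ D.G := D.uexp_X_mem_G _ _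
    have hvG : v' ∈ D.G :=
      D.G.mul_mem (D.G.mul_mem (D.G.mul_mem hhG (D.G.inv_mem hαG)) (D.G.inv_mem hhG)) hαG
    have heinv : ((e⁻¹ : Rˣ) : R) - 1 ∈ D.I 1 := D.G_sub (D.G.inv_mem heG)
    set u' := u * (e * v' * e⁻¹) with hu'
    have hu'G : u' ∈ D.G :=
      D.G.mul_mem hu (D.G.mul_mem (D.G.mul_mem heG hvG) (D.G.inv_mem heG))
    have hu'z : (u' : R) - 1 - z ∈ D.I (k + 1) := by
      have h1 := D.conj_congr (e := e⁻¹) ((D.I _).neg_mem ((D.I _).smul_mem c hbk)) hv1 heinv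
      rw [inv_inv] at h1
      have h2 := D.mul_congr' ((D.I _).neg_mem ((D.I _).smul_mem c hbk)) h1 hu1 huz
      have h3 : -(c • b) + (z + c • b) = z := by abel
      rwa [h3] at h2
    set t' : ℝ := (t - α.re) / 2 with ht'
    have ht'pos : 0 < t' := by rw [ht']; linarith
    have hmem := hQ u' hu'G hu'z s t' hs ht'pos
    have hdec : uexp ((s : ℂ) • D.X false) * u * e
        = (uexp ((s : ℂ) • D.X false) * u' * uexp ((t' : ℂ) • D.X true))
          * uexp (((t : ℂ) - α - (t' : ℂ)) • D.X true) * (h * uexp (α • D.X true) * h⁻¹) := by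
      have h1 : e = uexp ((t' : ℂ) • D.X true) * uexp (((t : ℂ) - α - (t' : ℂ)) • D.X true)
          * uexp (α • D.X true) := by
        rw [← uexp_add_smul, ← uexp_add_smul, he]
        congr 2
        ring
      have h2 : uexp ((t' : ℂ) • D.X true) * uexp (((t : ℂ) - α - (t' : ℂ)) • D.X true)
          = e * (uexp (α • D.X true))⁻¹ := by
        rw [h1]
        group
      have h3 : (uexp ((s : ℂ) • D.X false) * u' * uexp ((t' : ℂ) • D.X true))
          * uexp (((t : ℂ) - α - (t' : ℂ)) • D.X true) * (h * uexp (α • D.X true) * h⁻¹)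
          = uexp ((s : ℂ) • D.X false) * u' * (uexp ((t' : ℂ) • D.X true)
          * uexp (((t : ℂ) - α - (t' : ℂ)) • D.X true)) * (h * uexp (α • D.X true) * h⁻¹) := by
        group
      rw [h3, h2, hu', hv']
      group
    rw [hdec]
    refine D.S0_mul (D.S0_mul hmem (D.S0_exp ?_ _)) (D.S0_mul (D.S0_mul (D.H_sub_S0 hh)
      (D.S0_exp hα0 _)) (D.H_sub_S0 (D.H_inv hh)))
    rw [Complex.sub_re, Complex.sub_re, Complex.ofReal_re, Complex.ofReal_re, ht']
    linarith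

lemma QQ_Lk {k : ℕ} (hk : 2 ≤ k) (x : R) (hx : x ∈ D.Lk k) :
    ∀ (c : ℂ) (z : R), D.QQ k z → D.QQ k (z + c • x) := by
  refine Submodule.span_induction ?_ ?_ ?_ ?_ hx
  · rintro _ ⟨w, hw, rfl⟩ c z hQ
    exact D.QQ_step hk w hw c z hQ
  · intro c z hQ
    simpa using hQ
  · intro x y _ _ h1 h2 c z hQ
    rw [smul_add, ← add_assoc]
    exact h2 c _ (h1 c z hQ)
  · intro a x _ h1 c z hQ
    rw [smul_smul]
    exact h1 _ z hQ

/-- Every element of `G ∩ (1 + I 2)` becomes a product with coefficients in the closed right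
half-plane after multiplying by `exp (s X₀)` on the left and `exp (t X₁)` on the right. -/
lemma Q_all (k : ℕ) (hk : 2 ≤ k) : D.Q k := by
  have key : ∀ j k : ℕ, 2 ≤ k → N + 1 ≤ k + j → D.Q k := by
    intro j
    induction j with
    | zero =>
      intro k _ hkN u hu huk s t hs ht
      rw [D.I_eq_bot (by omega), Submodule.mem_bot] at huk
      have hu1 : u = 1 := by
        ext
        rw [Units.val_one]
        exact sub_eq_zero.mp huk
      rw [hu1, mul_one]
      refine D.S0_mul (D.S0_exp ?_ _) (D.S0_exp ?_ _)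
      · rw [Complex.ofReal_re]; exact hs.le
      · rw [Complex.ofReal_re]; exact ht.le
    | succ j ih =>
      intro k hk2 hkN u hu huk s t hs ht
      have hQ1 : D.Q (k + 1) := ih (k + 1) (by omega) (by omega)
      obtain ⟨z, hz, hz'⟩ := D.G_leading (by omega) hu huk
      have hQQ0 : D.QQ k 0 := by
        intro u hu huz
        rw [sub_zero] at huz
        exact hQ1 u hu huz
      have hQQz := D.QQ_Lk hk2 z hz 1 0 hQQ0
      rw [zero_add, one_smul] at hQQz
      exact hQQz u hu hz' s t hs ht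
  exact key (N + 1) k hk (by omega)

/-- **Closed half-plane theorem.** An element of `G` whose degree-one part is `a X₀ + b X₁` with
`Re a, Re b > 0` is a product of exponentials with coefficients in the closed right half-plane. -/
lemma mem_S0 {g : Rˣ} (hg : g ∈ D.G) {a b : ℂ} (ha : 0 < a.re) (hb : 0 < b.re)
    (hgab : (g : R) - 1 - D.lin a b ∈ D.I 2) : g ∈ D.S0 := by
  set eA := uexp (a • D.X false) with heA
  set eB := uexp (b • D.X true) with heB
  have heAG : eA ∈ D.G := D.uexp_X_mem_G _ _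
  have heBG : eB ∈ D.G := D.uexp_X_mem_G _ _
  set u := eA⁻¹ * g * eB⁻¹ with hu
  have huG : u ∈ D.G := D.G.mul_mem (D.G.mul_mem (D.G.inv_mem heAG) hg) (D.G.inv_mem heBG)
  have hXA : a • D.X false ∈ D.I 1 := (D.I 1).smul_mem _ (D.X_mem _)
  have hXB : b • D.X true ∈ D.I 1 := (D.I 1).smul_mem _ (D.X_mem _)
  have hA : ((eA⁻¹ : Rˣ) : R) - 1 - (-(a • D.X false)) ∈ D.I 2 := by
    rw [sub_neg_eq_add]
    exact D.inv_congr le_rfl hXA (D.exp_sub_one_sub_mem hXA)
  have hB : ((eB⁻¹ : Rˣ) : R) - 1 - (-(b • D.X true)) ∈ D.I 2 := by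
    rw [sub_neg_eq_add]
    exact D.inv_congr le_rfl hXB (D.exp_sub_one_sub_mem hXB)
  have hu2 : (u : R) - 1 ∈ D.I 2 := by
    have h1 := D.mul_congr ((D.I 1).neg_mem hXA) hA (D.G_sub hg) hgab
    have h2 := D.mul_congr' ((D.I 1).neg_mem hXB) hB
      (D.G_sub (D.G.mul_mem (D.G.inv_mem heAG) hg)) h1
    have h3 : -(b • D.X true) + (-(a • D.X false) + D.lin a b) = 0 := by
      unfold lin
      abel
    rw [h3, sub_zero] at h2
    exact h2
  have hmem := D.Q_all 2 le_rfl u huG hu2 (a.re / 2) (b.re / 2) (by linarith) (by linarith)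
  have hdec : g = uexp ((a - ((a.re / 2 : ℝ) : ℂ)) • D.X false)
      * (uexp (((a.re / 2 : ℝ) : ℂ) • D.X false) * u * uexp (((b.re / 2 : ℝ) : ℂ) • D.X true))
      * uexp ((b - ((b.re / 2 : ℝ) : ℂ)) • D.X true) := by
    have h1 : eA = uexp ((a - ((a.re / 2 : ℝ) : ℂ)) • D.X false)
        * uexp (((a.re / 2 : ℝ) : ℂ) • D.X false) := by
      rw [← uexp_add_smul, sub_add_cancel]
    have h2 : eB = uexp (((b.re / 2 : ℝ) : ℂ) • D.X true)
        * uexp ((b - ((b.re / 2 : ℝ) : ℂ)) • D.X true) := by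
      rw [← uexp_add_smul, add_sub_cancel]
    have h3 : g = eA * u * eB := by
      rw [hu]
      group
    rw [h3, h1, h2]
    group
  rw [hdec]
  refine D.S0_mul (D.S0_mul (D.S0_exp ?_ _) hmem) (D.S0_exp ?_ _)
  · rw [Complex.sub_re, Complex.ofReal_re]
    linarith
  · rw [Complex.sub_re, Complex.ofReal_re]
    linarith

end Data

end Pool.Agent.Lib.Helper28.Split

end
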