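import Mathlib

/-!
# Splitting methods: definitions

`FlowsTo v x y` says that `y = e^{v} x`; `SplitFlowsTo f₀ f₁ T ps x z` says that
`z = e^{α₁ T f₀} e^{β₁ T f₁} ⋯ e^{αₖ T f₀} e^{βₖ T f₁} x` for `ps = [(α₁, β₁), …, (αₖ, βₖ)]`;
`HasOrder N ps` says that `ps` is a splitting method of order at least `N`.
-/

namespace Pool.Agent.Lib.Helper28.Split

/-- `y` is the value at time one of a solution on `[0, 1]` of `γ' = v(γ)`, `γ(0) = x`. -/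
def FlowsTo {E : Type*} [NormedAddCommGroup E] [NormedSpace ℂ E] (v : E → E) (x y : E) : Prop :=
  ∃ γ : ℝ → E, γ 0 = x ∧ γ 1 = y ∧
    ∀ s ∈ Set.Icc (0 : ℝ) 1, HasDerivWithinAt γ (v (γ s)) (Set.Icc 0 1) s

/-- `z` is obtained from `x` by the composition
`e^{α₁ T f₀} e^{β₁ T f₁} ⋯ e^{αₖ T f₀} e^{βₖ T f₁}` (rightmost factor first). -/
def SplitFlowsTo {E : Type*} [NormedAddCommGroup E] [NormedSpace ℂ E] (f₀ f₁ : E → E) (T : ℝ) :
    List (ℂ × ℂ) → E → E → Prop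
  | [], x, z => z = x
  | (a, b) :: ps, x, z => ∃ y w, SplitFlowsTo f₀ f₁ T ps x y ∧
      FlowsTo ((b * (T : ℂ)) • f₁) y w ∧ FlowsTo ((a * (T : ℂ)) • f₀) w z

/-- The method with coefficients `ps = [(α₁, β₁), …, (αₖ, βₖ)]` has order at least `N`: for all
holomorphic vector fields `f₀`, `f₁` on `ℂ^d` and all `x₀`, for all small `T > 0` the flow of
`T (f₀ + f₁)` from `x₀` and the composition are defined and they differ by at most
`C T ^ (N + 1)`. -/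
def HasOrder (N : ℕ) (ps : List (ℂ × ℂ)) : Prop :=
  ∀ (d : ℕ) (f₀ f₁ : EuclideanSpace ℂ (Fin d) → EuclideanSpace ℂ (Fin d)),
    Differentiable ℂ f₀ → Differentiable ℂ f₁ → ∀ x₀ : EuclideanSpace ℂ (Fin d),
      ∃ C T₀ : ℝ, 0 < T₀ ∧ ∀ T : ℝ, 0 < T → T < T₀ →
        (∃ y, FlowsTo ((T : ℂ) • (f₀ + f₁)) x₀ y) ∧ (∃ z, SplitFlowsTo f₀ f₁ T ps x₀ z) ∧
        ∀ y z, FlowsTo ((T : ℂ) • (f₀ + f₁)) x₀ y → SplitFlowsTo f₀ f₁ T ps x₀ z →
          ‖y - z‖ ≤ C * T ^ (N + 1)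

end Pool.Agent.Lib.Helper28.Split
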