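import Mathlib
import Pool.Agent.Lib.Helper28.Split.ClosedHalf

/-!
# Products of exponentials with coefficients in the open right half-plane

Main result: for some real `c > 0`, the exponential of `c (X₀ + X₁)` is a product of exponentials
of multiples of `X₀`, `X₁` whose coefficients have strictly positive real parts.
-/

open NormedSpace Filter Topology

set_option linter.unusedSectionVars false

noncomputable section

namespace Pool.Agent.Lib.Helper28.Split

namespace Data

variable {R : Type*} [NormedRing R] [NormedAlgebra ℂ R] {N : ℕ} (D : Data R N)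
variable [CompleteSpace R] [FiniteDimensional ℂ R]

/-- The span of the conjugates `w⁻¹ Xᵢ w`, `w ∈ S`. -/
def M : Submodule ℂ R :=
  Submodule.span ℂ {y | ∃ w ∈ D.S, ∃ i, y = ((w⁻¹ : Rˣ) : R) * D.X i * (w : R)}

lemma one_mem_S : (1 : Rˣ) ∈ D.S := ⟨[], by simp, rfl⟩

lemma M_conj {w : Rˣ} (hw : w ∈ D.S) (i : Bool) :
    ((w⁻¹ : Rˣ) : R) * D.X i * (w : R) ∈ D.M := Submodule.subset_span ⟨w, hw, i, rfl⟩

lemma M_bracket {y : R} (hy : y ∈ D.M) (j : Bool) : y * D.X j - D.X j * y ∈ D.M := by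
  refine Submodule.span_induction ?_ ?_ ?_ ?_ hy
  · rintro _ ⟨w, hw, i, rfl⟩
    set y := ((w⁻¹ : Rˣ) : R) * D.X i * (w : R) with hydef
    set f : ℝ → R := fun t => exp (t • (-(D.X j))) * y * exp (t • D.X j) with hf
    have hf0 : f 0 = y := by
      simp only [hf, zero_smul, exp_zero, one_mul, mul_one]
    have hderiv : HasDerivAt f (y * D.X j - D.X j * y) 0 := by
      have h1 := hasDerivAt_exp_smul_const (𝕂 := ℝ) (-(D.X j)) (0 : ℝ)
      have h2 := hasDerivAt_exp_smul_const (𝕂 := ℝ) (D.X j) (0 : ℝ)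
      have h3 := (h1.mul_const y).mul h2
      refine h3.congr_deriv ?_
      simp only [zero_smul, exp_zero, one_mul, mul_one]
      noncomm_ring
    have hmem : ∀ t : ℝ, 0 < t → f t ∈ D.M := by
      intro t ht
      have h5 : w * uexp ((t : ℂ) • D.X j) ∈ D.S :=
        D.S_mul hw (D.S_exp (by rw [Complex.ofReal_re]; exact ht) j)
      have h6 := D.M_conj h5 i
      convert h6 using 1
      simp only [hf, mul_inv_rev, Units.val_mul, uexp_inv_val, uexp_val, hydef, smul_neg,
        Complex.coe_smul]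
      noncomm_ring
    have hy' : y ∈ D.M := D.M_conj hw i
    have hc : IsClosed (D.M : Set R) := D.M.closed_of_finiteDimensional
    have hslope := hderiv.tendsto_slope_zero_right
    refine hc.mem_of_tendsto hslope ?_
    filter_upwards [self_mem_nhdsWithin] with t ht
    have ht' : (0 : ℝ) < t := ht
    have h7 : t⁻¹ • (f (0 + t) - f 0) ∈ D.M := by
      have h8 : t⁻¹ • (f (0 + t) - f 0) = ((t⁻¹ : ℝ) : ℂ) • (f (0 + t) - f 0) :=
        (Complex.coe_smul _ _).symm
      rw [h8, zero_add, hf0]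
      exact D.M.smul_mem _ (D.M.sub_mem (hmem t ht') hy')
    exact h7
  · simp
  · intro x y _ _ h1 h2
    have := D.M.add_mem h1 h2
    convert this using 1
    noncomm_ring
  · intro a x _ h1
    have := D.M.smul_mem a h1
    convert this using 1
    rw [smul_sub, smul_mul_assoc, mul_smul_comm]

lemma L_le_M : D.L ≤ D.M := by
  refine Submodule.span_le.mpr ?_
  rintro _ ⟨w, rfl⟩
  change D.br w ∈ D.M
  induction w with
  | nil => rw [br_nil]; exact D.M.zero_mem
  | cons i w ih =>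
    by_cases hw : w = []
    · subst hw
      rw [br_single]
      have := D.M_conj D.one_mem_S i
      simpa using this
    · rw [D.br_cons i hw]
      exact D.M_bracket ih i

/-- Families of products with open coefficients whose differential has rank `k`. -/
lemma exists_family (k : ℕ) (hk : k ≤ Module.finrank ℂ D.L) :
    ∃ (E : Type) (_ : NormedAddCommGroup E) (_ : NormedSpace ℂ E) (_ : FiniteDimensional ℂ E)
      (F : E → Rˣ) (a : E) (F' : E →L[ℂ] R),
      Module.finrank ℂ E = k ∧ HasStrictFDerivAt (fun x => ((F x : Rˣ) : R)) F' a ∧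
      (∀ᶠ x in 𝓝 a, F x ∈ D.S) ∧ (∀ v, (((F a)⁻¹ : Rˣ) : R) * F' v ∈ D.L) ∧
      Function.Injective F' := by
  induction k with
  | zero =>
    refine ⟨Fin 0 → ℂ, inferInstance, inferInstance, inferInstance, fun _ => 1, 0, 0, ?_, ?_, ?_,
      ?_, ?_⟩
    · simp
    · exact hasStrictFDerivAt_const _ _
    · exact Eventually.of_forall (fun _ => D.one_mem_S)
    · intro v
      simp
    · intro x y _
      exact Subsingleton.elim _ _
  | succ k ih =>
    obtain ⟨E, i1, i2, i3, F, a, F', hfin, hF, hS, hL, hinj⟩ := ih (by omega)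
    have hT : F a ∈ D.S := hS.self_of_nhds
    set T := F a with hTdef
    -- the range of the left-trivialised differential
    let Λ : E →ₗ[ℂ] R :=
      (LinearMap.mulLeft ℂ (((T⁻¹ : Rˣ) : R))).comp F'.toLinearMap
    have hΛ : ∀ v, Λ v = ((T⁻¹ : Rˣ) : R) * F' v := fun v => rfl
    have hΛinj : Function.Injective Λ := by
      intro x y hxy
      apply hinj
      rw [hΛ, hΛ] at hxy
      have h1 := congrArg (fun z => (T : R) * z) hxy
      simpa [← mul_assoc] using h1
    have hrank : Module.finrank ℂ (LinearMap.range Λ) = k := by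
      rw [LinearMap.finrank_range_of_inj hΛinj, hfin]
    -- find a new direction
    obtain ⟨v, hv, i, hvi⟩ : ∃ v ∈ D.S, ∃ i, ((T⁻¹ : Rˣ) : R)
        * (((v⁻¹ : Rˣ) : R) * D.X i * (v : R)) * (T : R) ∉ LinearMap.range Λ := by
      by_contra hcon
      push Not at hcon
      have h1 : ∀ y ∈ D.M, ((T⁻¹ : Rˣ) : R) * y * (T : R) ∈ LinearMap.range Λ := by
        intro y hy
        refine Submodule.span_induction ?_ ?_ ?_ ?_ hy
        · rintro _ ⟨w, hw, i, rfl⟩
          exact hcon w hw i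
        · simp
        · intro x y _ _ h1 h2
          have := (LinearMap.range Λ).add_mem h1 h2
          convert this using 1
          noncomm_ring
        · intro c x _ h1
          have := (LinearMap.range Λ).smul_mem c h1
          convert this using 1
          rw [mul_smul_comm, smul_mul_assoc]
      have h2 : D.L ≤ LinearMap.range Λ := by
        intro y hy
        have h3 := D.G_conj' (D.S_sub_G hT) hy
        have h4 := h1 _ (D.L_le_M h3)
        have h5 : ((T⁻¹ : Rˣ) : R) * ((T : R) * y * ((T⁻¹ : Rˣ) : R)) * (T : R) = y := by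
          have h6 : ((T⁻¹ : Rˣ) : R) * ((T : R) * y * ((T⁻¹ : Rˣ) : R)) * (T : R)
              = (((T⁻¹ : Rˣ) : R) * (T : R)) * y * (((T⁻¹ : Rˣ) : R) * (T : R)) := by noncomm_ring
          rw [h6, Units.inv_mul, one_mul, mul_one]
        rwa [h5] at h4
      have h3 := Submodule.finrank_mono h2
      omega
    set y0 : R := ((T⁻¹ : Rˣ) : R) * (((v⁻¹ : Rˣ) : R) * D.X i * (v : R)) * (T : R) with hy0
    have hvT : v * T ∈ D.G := D.S_sub_G (D.S_mul hv hT)
    have hXL : D.X i ∈ D.L := by rw [← D.br_single]; exact D.br_mem_L _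
    have hy0L : y0 ∈ D.L := by
      have := D.G_conj hvT hXL
      convert this using 1
      rw [hy0, mul_inv_rev, Units.val_mul, Units.val_mul]
      noncomm_ring
    -- the new family
    let F2 : E × ℂ → Rˣ := fun p => uexp (p.2 • D.X i) * (v * F p.1)
    have hexp : HasStrictFDerivAt (fun p : E × ℂ => exp (p.2 • D.X i))
        ((exp ((1 : ℂ) • D.X i) • (1 : ℂ →L[ℂ] ℂ).smulRight (D.X i)).comp
          (ContinuousLinearMap.snd ℂ E ℂ)) (a, (1 : ℂ)) := by
      have h1 : HasStrictFDerivAt (fun t : ℂ => exp (t • D.X i))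
          (exp ((1 : ℂ) • D.X i) • (1 : ℂ →L[ℂ] ℂ).smulRight (D.X i)) (1 : ℂ) :=
        hasStrictFDerivAt_exp_smul_const ℂ (D.X i) (1 : ℂ)
      exact HasStrictFDerivAt.comp (𝕜 := ℂ) (a, (1 : ℂ)) h1 hasStrictFDerivAt_snd
    have hvF : HasStrictFDerivAt (fun p : E × ℂ => (v : R) * ((F p.1 : Rˣ) : R))
        (((ContinuousLinearMap.mul ℂ R (v : R)).comp F').comp (ContinuousLinearMap.fst ℂ E ℂ))
        (a, (1 : ℂ)) := by
      have h1 : HasStrictFDerivAt (fun x : E => (v : R) * ((F x : Rˣ) : R))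
          ((ContinuousLinearMap.mul ℂ R (v : R)).comp F') a :=
        (ContinuousLinearMap.mul ℂ R (v : R)).hasStrictFDerivAt.comp a hF
      exact HasStrictFDerivAt.comp (𝕜 := ℂ) (a, (1 : ℂ)) h1 hasStrictFDerivAt_fst
    have hmul := hexp.mul' hvF
    set F2' : E × ℂ →L[ℂ] R :=
      exp (((a, (1 : ℂ)) : E × ℂ).2 • D.X i) •
          (((ContinuousLinearMap.mul ℂ R (v : R)).comp F').comp (ContinuousLinearMap.fst ℂ E ℂ)) +
        MulOpposite.op ((v : R) * ((F ((a, (1 : ℂ)) : E × ℂ).1 : Rˣ) : R)) •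
          ((exp ((1 : ℂ) • D.X i) • (1 : ℂ →L[ℂ] ℂ).smulRight (D.X i)).comp
          (ContinuousLinearMap.snd ℂ E ℂ)) with hF2'
    have hval : ∀ p : E × ℂ, (((F2 (a, 1))⁻¹ : Rˣ) : R) * F2' p = Λ p.1 + p.2 • y0 := by
      intro p
      have h1 : F2' p = exp (D.X i) * ((v : R) * F' p.1)
          + (exp (D.X i) * (p.2 • D.X i)) * ((v : R) * (T : R)) := by
        simp [hF2', hTdef]
      have h2 : (((F2 (a, 1))⁻¹ : Rˣ) : R)
          = ((T⁻¹ : Rˣ) : R) * ((v⁻¹ : Rˣ) : R) * exp (-(D.X i)) := by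
        simp only [F2, one_smul, mul_inv_rev, Units.val_mul, uexp_inv_val, hTdef]
      have h3 : exp (-(D.X i)) * exp (D.X i) = 1 := exp_neg_mul_exp _
      have h4 : ((v⁻¹ : Rˣ) : R) * (v : R) = 1 := Units.inv_mul v
      rw [h1, h2, hΛ]
      calc ((T⁻¹ : Rˣ) : R) * ((v⁻¹ : Rˣ) : R) * exp (-(D.X i)) *
            (exp (D.X i) * ((v : R) * F' p.1)
              + (exp (D.X i) * (p.2 • D.X i)) * ((v : R) * (T : R)))
          = ((T⁻¹ : Rˣ) : R) * (((v⁻¹ : Rˣ) : R) * (exp (-(D.X i)) * exp (D.X i)) * (v : R))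
              * F' p.1 + ((T⁻¹ : Rˣ) : R) * ((v⁻¹ : Rˣ) : R) * (exp (-(D.X i)) * exp (D.X i))
              * (p.2 • D.X i) * (v : R) * (T : R) := by noncomm_ring
        _ = ((T⁻¹ : Rˣ) : R) * F' p.1 + p.2 • y0 := by
            rw [h3, mul_one, mul_one, h4, mul_one, hy0]
            simp only [mul_smul_comm, smul_mul_assoc, mul_assoc]
    refine ⟨E × ℂ, inferInstance, inferInstance, inferInstance, F2, (a, 1), F2', ?_, hmul, ?_, ?_,
      ?_⟩
    · rw [Module.finrank_prod, hfin, Module.finrank_self]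
    · have h1 : ∀ᶠ p : E × ℂ in 𝓝 (a, (1 : ℂ)), F p.1 ∈ D.S :=
        (continuous_fst.tendsto (a, (1 : ℂ))).eventually hS
      have h2 : ∀ᶠ p : E × ℂ in 𝓝 (a, (1 : ℂ)), 0 < p.2.re := by
        have h3 : Continuous (fun p : E × ℂ => p.2.re) := Complex.continuous_re.comp continuous_snd
        exact (h3.tendsto (a, (1 : ℂ))).eventually (lt_mem_nhds (by simp))
      filter_upwards [h1, h2] with p hp1 hp2
      exact D.S_mul (D.S_exp hp2 i) (D.S_mul hv hp1)
    · intro p
      rw [hval]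
      exact D.L.add_mem (hL p.1) (D.L.smul_mem _ hy0L)
    · have hker : ∀ p : E × ℂ, F2' p = 0 → p = 0 := by
        intro p hp
        have h1 := hval p
        rw [hp, mul_zero] at h1
        have h2 : p.2 = 0 := by
          by_contra hne
          apply hvi
          have h3 : y0 = Λ (-(p.2)⁻¹ • p.1) := by
            have h4 : p.2 • y0 = -(Λ p.1) := by
              rw [eq_neg_iff_add_eq_zero, add_comm]
              exact h1.symm
            rw [map_smul, neg_smul, ← smul_neg, ← h4, smul_smul, inv_mul_cancel₀ hne, one_smul]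
          rw [h3]
          exact ⟨_, rfl⟩
        have h3 : Λ p.1 = 0 := by
          rw [h2, zero_smul, add_zero] at h1
          exact h1.symm
        have h4 : p.1 = 0 := by
          apply hΛinj
          rw [h3, map_zero]
        exact Prod.ext h4 h2
      exact (injective_iff_map_eq_zero F2').mpr hker

/-- The degree-one part of an element of `G`. -/
lemma G_deg_one {g : Rˣ} (hg : g ∈ D.G) : ∃ a b : ℂ, (g : R) - 1 - D.lin a b ∈ D.I 2 := by
  obtain ⟨z, hz, hz'⟩ := D.G_leading le_rfl hg (D.G_sub hg)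
  have h1 : ∃ a b : ℂ, z = D.lin a b := by
    refine Submodule.span_induction ?_ ?_ ?_ ?_ hz
    · rintro _ ⟨w, hw, rfl⟩
      have hw' : w.length = 1 := hw
      obtain ⟨i, rfl⟩ := List.length_eq_one_iff.mp hw'
      rw [br_single]
      cases i with
      | false => exact ⟨1, 0, by unfold lin; simp⟩
      | true => exact ⟨0, 1, by unfold lin; simp⟩
    · exact ⟨0, 0, by unfold lin; simp⟩
    · rintro x y _ _ ⟨a, b, rfl⟩ ⟨c, d, rfl⟩
      refine ⟨a + c, b + d, ?_⟩
      unfold lin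
      rw [add_smul, add_smul]
      abel
    · rintro c x _ ⟨a, b, rfl⟩
      refine ⟨c * a, c * b, ?_⟩
      unfold lin
      rw [smul_add, smul_smul, smul_smul]
  obtain ⟨a, b, rfl⟩ := h1
  exact ⟨a, b, hz'⟩

/-- Shift all coefficients of a list by `ε`. -/
def shift (ε : ℝ) (l : List (Bool × ℂ)) : List (Bool × ℂ) := l.map (fun p => (p.1, p.2 + (ε : ℂ)))

lemma pr_shift_continuous (l : List (Bool × ℂ)) :
    Continuous (fun ε : ℝ => ((D.pr (shift ε l) : Rˣ) : R)) ∧
      Continuous (fun ε : ℝ => (((D.pr (shift ε l))⁻¹ : Rˣ) : R)) := by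
  have hexp : Continuous (exp : R → R) := by
    have h := (NormedSpace.exp_analytic (𝕂 := ℂ) (𝔸 := R))
    exact continuous_iff_continuousAt.mpr (fun x => (h x).continuousAt)
  induction l with
  | nil =>
    constructor
    · exact continuous_const
    · exact continuous_const
  | cons p l ih =>
    obtain ⟨ih1, ih2⟩ := ih
    have h1 : ∀ ε : ℝ, D.pr (shift ε (p :: l))
        = uexp ((p.2 + (ε : ℂ)) • D.X p.1) * D.pr (shift ε l) := by
      intro ε
      exact D.pr_cons _ _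
    have hc : Continuous (fun ε : ℝ => (p.2 + (ε : ℂ)) • D.X p.1) :=
      (continuous_const.add Complex.continuous_ofReal).smul continuous_const
    constructor
    · have h2 : (fun ε : ℝ => ((D.pr (shift ε (p :: l)) : Rˣ) : R))
          = fun ε : ℝ => exp ((p.2 + (ε : ℂ)) • D.X p.1) * ((D.pr (shift ε l) : Rˣ) : R) := by
        funext ε
        rw [h1, Units.val_mul, uexp_val]
      rw [h2]
      exact (hexp.comp hc).mul ih1
    · have h2 : (fun ε : ℝ => (((D.pr (shift ε (p :: l)))⁻¹ : Rˣ) : R))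
          = fun ε : ℝ => (((D.pr (shift ε l))⁻¹ : Rˣ) : R)
            * exp (-((p.2 + (ε : ℂ)) • D.X p.1)) := by
        funext ε
        rw [h1, mul_inv_rev, Units.val_mul, uexp_inv_val]
      rw [h2]
      exact ih2.mul (hexp.comp hc.neg)

lemma pr_shift_zero (l : List (Bool × ℂ)) : D.pr (shift 0 l) = D.pr l := by
  unfold shift
  congr 1
  simp

lemma pr_shift_mem_S {l : List (Bool × ℂ)} (hl : ∀ p ∈ l, 0 ≤ p.2.re) {ε : ℝ} (hε : 0 < ε) :
    D.pr (shift ε l) ∈ D.S := by
  refine ⟨shift ε l, ?_, rfl⟩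
  intro p hp
  unfold shift at hp
  obtain ⟨q, hq, rfl⟩ := List.mem_map.mp hp
  change 0 < (q.2 + (ε : ℂ)).re
  rw [Complex.add_re, Complex.ofReal_re]
  have := hl q hq
  linarith

/-- **Open half-plane theorem.** There is a threshold `c` such that every element of `G` whose
degree-one part is `a X₀ + b X₁` with `Re a, Re b > c` is a product of exponentials of multiples of
the generators with coefficients of positive real part. -/
theorem exists_threshold : ∃ c : ℝ, 0 < c ∧ ∀ gc ∈ D.G, ∀ a b : ℂ, c < a.re → c < b.re →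
    (gc : R) - 1 - D.lin a b ∈ D.I 2 → gc ∈ D.S := by
  obtain ⟨E, i1, i2, i3, F, a, F', hfin, hF, hS, hL, hinj⟩ :=
    D.exists_family (Module.finrank ℂ D.L) le_rfl
  have : CompleteSpace E := FiniteDimensional.complete ℂ E
  have hg0S : F a ∈ D.S := hS.self_of_nhds
  set g0 := F a with hg0
  have hg0G : g0 ∈ D.G := D.S_sub_G hg0S
  -- the chart
  obtain ⟨π, hπ⟩ := LinearMap.exists_leftInverse_of_injective D.L.subtype
    (by rw [Submodule.ker_subtype])
  have hπ' : ∀ y (hy : y ∈ D.L), π y = ⟨y, hy⟩ := by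
    intro y hy
    exact LinearMap.congr_fun hπ ⟨y, hy⟩
  let πc : R →L[ℂ] D.L := ⟨π, π.continuous_of_finiteDimensional⟩
  let δc : R →L[ℂ] R := ⟨D.δ, D.δ.continuous_of_finiteDimensional⟩
  let K : E → D.L := fun x => πc (Ring.inverse ((F x : Rˣ) : R) * (g0 : R)
    * δc (((g0⁻¹ : Rˣ) : R) * ((F x : Rˣ) : R)))
  have hKval : ∀ x, K x = π (D.κ (g0⁻¹ * F x)) := by
    intro x
    change π _ = π _
    congr 1
    unfold κ
    rw [Ring.inverse_unit, mul_inv_rev, inv_inv, Units.val_mul, Units.val_mul]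
    rfl
  -- derivative of the chart
  let B' : E →L[ℂ] R := δc.comp ((ContinuousLinearMap.mul ℂ R ((g0⁻¹ : Rˣ) : R)).comp F')
  have hB : HasStrictFDerivAt (fun x : E => δc (((g0⁻¹ : Rˣ) : R) * ((F x : Rˣ) : R))) B' a :=
    δc.hasStrictFDerivAt.comp a
      ((ContinuousLinearMap.mul ℂ R ((g0⁻¹ : Rˣ) : R)).hasStrictFDerivAt.comp a hF)
  have hA0 := (hasStrictFDerivAt_ringInverse (𝕜 := ℂ) (F a)).comp a hF
  have hA := ((ContinuousLinearMap.mul ℂ R).flip (g0 : R)).hasStrictFDerivAt.comp a hA0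
  have hAB := hA.mul' hB
  have hKd : HasStrictFDerivAt K (πc.comp B') a := by
    have h1 := πc.hasStrictFDerivAt.comp a hAB
    refine h1.congr_fderiv ?_
    congr 1
    ext x
    have h2 : δc (((g0⁻¹ : Rˣ) : R) * ((F a : Rˣ) : R)) = 0 := by
      rw [← hg0, Units.inv_mul]
      exact D.δ_one
    have h3 : δc 1 = 0 := D.δ_one
    simp [← hg0, h3]
  -- it is injective, hence surjective
  have hKinj : Function.Injective (πc.comp B') := by
    rw [injective_iff_map_eq_zero]
    intro x hx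
    have h1 : D.δ (((g0⁻¹ : Rˣ) : R) * F' x) ∈ D.L := D.δ_L (hL x)
    have h2 : (⟨D.δ (((g0⁻¹ : Rˣ) : R) * F' x), h1⟩ : D.L) = 0 := by
      rw [← hπ' _ h1]
      exact hx
    have h3 : D.δ (((g0⁻¹ : Rˣ) : R) * F' x) = 0 := congrArg Subtype.val h2
    have h4 := D.δ_inj (D.L_le_I (hL x)) h3
    have h5 : F' x = 0 := by
      have h6 := congrArg (fun z => (g0 : R) * z) h4
      simpa [← mul_assoc] using h6
    exact (injective_iff_map_eq_zero F').mp hinj x h5
  have hKsurj : Function.Surjective (πc.comp B') :=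
    (LinearMap.injective_iff_surjective_of_finrank_eq_finrank
      (f := (πc.comp B').toLinearMap) hfin).mp hKinj
  have hopen := hKd.map_nhds_eq_of_surj (LinearMap.range_eq_top.mpr hKsurj)
  have hKa : K a = 0 := by
    rw [hKval, ← hg0, inv_mul_cancel, D.κ_one, map_zero]
  have hnhds : K '' {x | F x ∈ D.S} ∈ 𝓝 (0 : D.L) := by
    rw [← hKa, ← hopen]
    exact image_mem_map hS
  -- choice of `c`
  obtain ⟨p, q, hpq⟩ := D.G_deg_one hg0G
  set c : ℝ := |p.re| + |q.re| + 1 with hc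
  have hcpos : 0 < c := by positivity
  refine ⟨c, hcpos, ?_⟩
  intro gc hgcG α β hα hβ h2
  have hg1 : ((gc * g0⁻¹ : Rˣ) : R) - 1 - D.lin (α - p) (β - q) ∈ D.I 2 := by
    have h1 : ((g0⁻¹ : Rˣ) : R) - 1 - (-(D.lin p q)) ∈ D.I 2 := by
      rw [sub_neg_eq_add]
      exact D.inv_congr le_rfl (D.lin_mem _ _) hpq
    have h3 := D.mul_congr (D.lin_mem _ _) h2 (D.G_sub (D.G.inv_mem hg0G)) h1
    have h4 : D.lin α β + -(D.lin p q) = D.lin (α - p) (β - q) := by
      unfold lin
      rw [sub_smul, sub_smul]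
      abel
    rwa [h4] at h3
  have hmem : gc * g0⁻¹ ∈ D.S0 := by
    refine D.mem_S0 (D.G.mul_mem hgcG (D.G.inv_mem hg0G)) ?_ ?_ hg1
    · rw [Complex.sub_re]
      have := le_abs_self p.re
      have := abs_nonneg q.re
      linarith
    · rw [Complex.sub_re]
      have := le_abs_self q.re
      have := abs_nonneg p.re
      linarith
  obtain ⟨l, hl, hlg⟩ := hmem
  obtain ⟨hcont1, hcont2⟩ := D.pr_shift_continuous l
  set θ : ℝ → Rˣ := fun ε => g0⁻¹ * ((D.pr (shift ε l))⁻¹ * gc) with hθ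
  have hθG : ∀ ε, θ ε ∈ D.G := fun ε => D.G.mul_mem (D.G.inv_mem hg0G)
    (D.G.mul_mem (D.G.inv_mem (D.pr_mem_G _)) hgcG)
  have hθ0 : θ 0 = 1 := by
    rw [hθ]
    simp only
    rw [D.pr_shift_zero, hlg]
    group
  have hθcont : Continuous (fun ε => D.κ (θ ε)) := by
    have h1 : (fun ε => D.κ (θ ε)) = fun ε => (((gc⁻¹ : Rˣ) : R) * ((D.pr (shift ε l) : Rˣ) : R)
        * (g0 : R)) * δc (((g0⁻¹ : Rˣ) : R) * ((((D.pr (shift ε l))⁻¹ : Rˣ) : R) * (gc : R))) := by
      funext ε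
      unfold κ
      simp only [hθ, mul_inv_rev, inv_inv, Units.val_mul]
      rfl
    rw [h1]
    refine ((continuous_const.mul hcont1).mul continuous_const).mul ?_
    exact δc.continuous.comp (continuous_const.mul (hcont2.mul continuous_const))
  have hθL : Continuous (fun ε => (⟨D.κ (θ ε), D.G_κ (hθG ε)⟩ : D.L)) :=
    hθcont.subtype_mk _
  have hev : ∀ᶠ ε : ℝ in 𝓝 0, (⟨D.κ (θ ε), D.G_κ (hθG ε)⟩ : D.L) ∈ K '' {x | F x ∈ D.S} := by
    refine (hθL.tendsto 0).eventually ?_
    have h1 : (⟨D.κ (θ 0), D.G_κ (hθG 0)⟩ : D.L) = 0 := by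
      apply Subtype.ext
      change D.κ (θ 0) = 0
      rw [hθ0, D.κ_one]
    rw [h1]
    exact hnhds
  obtain ⟨ε, hε, hε0⟩ : ∃ ε : ℝ, (⟨D.κ (θ ε), D.G_κ (hθG ε)⟩ : D.L) ∈ K '' {x | F x ∈ D.S}
      ∧ 0 < ε := by
    have h1 := (hev.filter_mono nhdsWithin_le_nhds).and
      (self_mem_nhdsWithin : Set.Ioi (0 : ℝ) ∈ 𝓝[>] (0 : ℝ))
    exact h1.exists
  obtain ⟨x, hxS, hxK⟩ := hε
  have hxS' : F x ∈ D.S := hxS
  have hxG : g0⁻¹ * F x ∈ D.G := D.G.mul_mem (D.G.inv_mem hg0G) (D.S_sub_G hxS')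
  have hκ : D.κ (g0⁻¹ * F x) = D.κ (θ ε) := by
    rw [hKval, hπ' _ (D.G_κ hxG)] at hxK
    exact congrArg Subtype.val hxK
  have heq : g0⁻¹ * F x = θ ε := D.κ_inj hxG (hθG ε) hκ
  have hgoal : gc = D.pr (shift ε l) * F x := by
    have h1 : F x = (D.pr (shift ε l))⁻¹ * gc := by
      rw [hθ] at heq
      exact mul_left_cancel heq
    rw [h1]
    group
  rw [hgoal]
  exact D.S_mul (D.pr_shift_mem_S hl hε0) hxS'

/-- The list of letters and coefficients attached to a list of pairs `(α, β)`: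
first `α` on the letter `false`, then `β` on the letter `true`. -/
def flat : List (ℂ × ℂ) → List (Bool × ℂ)
  | [] => []
  | p :: ps => (false, p.1) :: (true, p.2) :: flat ps

/-- Merging consecutive equal letters. -/
lemma merge (l : List (Bool × ℂ)) (hl : ∀ p ∈ l, 0 < p.2.re) (b : ℂ) (hb : 0 < b.re) :
    (∀ a : ℂ, 0 < a.re → ∃ ps : List (ℂ × ℂ), ps ≠ [] ∧ (∀ p ∈ ps, 0 < p.1.re ∧ 0 < p.2.re) ∧
      D.pr (flat ps) = uexp (a • D.X false) * D.pr l * uexp (b • D.X true)) ∧
    (∀ a c : ℂ, 0 < a.re → 0 < c.re → ∃ ps : List (ℂ × ℂ), ps ≠ [] ∧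
      (∀ p ∈ ps, 0 < p.1.re ∧ 0 < p.2.re) ∧
      D.pr (flat ps) = uexp (a • D.X false) * uexp (c • D.X true) * D.pr l
        * uexp (b • D.X true)) := by
  induction l with
  | nil =>
    constructor
    · intro a ha
      refine ⟨[(a, b)], by simp, ?_, ?_⟩
      · intro p hp
        rw [List.mem_singleton.mp hp]
        exact ⟨ha, hb⟩
      · simp only [flat, pr_cons, pr_nil, mul_one]
    · intro a c ha hc
      refine ⟨[(a, c + b)], by simp, ?_, ?_⟩
      · intro p hp
        rw [List.mem_singleton.mp hp]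
        refine ⟨ha, ?_⟩
        change 0 < (c + b).re
        rw [Complex.add_re]
        linarith
      · simp only [flat, pr_cons, pr_nil, mul_one, uexp_add_smul, mul_assoc]
  | cons p l ih =>
    obtain ⟨ih1, ih2⟩ := ih (fun q hq => hl q (List.mem_cons_of_mem _ hq))
    have hp : 0 < p.2.re := hl p List.mem_cons_self
    obtain ⟨i, e⟩ := p
    change 0 < e.re at hp
    cases i with
    | false =>
      constructor
      · intro a ha
        obtain ⟨ps, h0, h1, h2⟩ := ih1 (a + e) (by rw [Complex.add_re]; linarith)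
        refine ⟨ps, h0, h1, ?_⟩
        rw [h2, pr_cons, uexp_add_smul]
        simp only [mul_assoc]
      · intro a c ha hc
        obtain ⟨ps, h0, h1, h2⟩ := ih1 e hp
        refine ⟨(a, c) :: ps, by simp, ?_, ?_⟩
        · intro p hp
          rcases List.mem_cons.mp hp with h | h
          · rw [h]
            exact ⟨ha, hc⟩
          · exact h1 p h
        · simp only [flat, pr_cons, h2, mul_assoc]
    | true =>
      constructor
      · intro a ha
        obtain ⟨ps, h0, h1, h2⟩ := ih2 a e ha hp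
        refine ⟨ps, h0, h1, ?_⟩
        rw [h2, pr_cons]
        simp only [mul_assoc]
      · intro a c ha hc
        obtain ⟨ps, h0, h1, h2⟩ := ih2 a (c + e) ha (by rw [Complex.add_re]; linarith)
        refine ⟨ps, h0, h1, ?_⟩
        rw [h2, pr_cons, uexp_add_smul]
        simp only [mul_assoc]

/-- **Splitting theorem in the filtered algebra.** For some real `c > 0`, the exponential of
`c (X₀ + X₁)` is a nonempty alternating product `exp (α₁ X₀) exp (β₁ X₁) ⋯ exp (αₖ X₀) exp (βₖ X₁)`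
with all `αⱼ`, `βⱼ` of positive real part. -/
theorem exists_splitting : ∃ c : ℝ, 0 < c ∧ ∃ ps : List (ℂ × ℂ), ps ≠ [] ∧
    (∀ p ∈ ps, 0 < p.1.re ∧ 0 < p.2.re) ∧
    D.pr (flat ps) = uexp (D.lin (c : ℂ) (c : ℂ)) := by
  obtain ⟨c, hc, hcG⟩ := D.exists_threshold
  refine ⟨c + 2, by linarith, ?_⟩
  set gc := uexp (D.lin ((c + 2 : ℝ) : ℂ) ((c + 2 : ℝ) : ℂ)) with hgc
  set eA := uexp ((1 : ℂ) • D.X false) with heA
  set eB := uexp ((1 : ℂ) • D.X true) with heB
  have hgcG : gc ∈ D.G := D.uexp_lin_mem_G _ _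
  have heAG : eA ∈ D.G := D.uexp_X_mem_G _ _
  have heBG : eB ∈ D.G := D.uexp_X_mem_G _ _
  have hXA : (1 : ℂ) • D.X false ∈ D.I 1 := (D.I 1).smul_mem _ (D.X_mem _)
  have hXB : (1 : ℂ) • D.X true ∈ D.I 1 := (D.I 1).smul_mem _ (D.X_mem _)
  have hA : ((eA⁻¹ : Rˣ) : R) - 1 - (-((1 : ℂ) • D.X false)) ∈ D.I 2 := by
    rw [sub_neg_eq_add]
    exact D.inv_congr le_rfl hXA (D.exp_sub_one_sub_mem hXA)
  have hB : ((eB⁻¹ : Rˣ) : R) - 1 - (-((1 : ℂ) • D.X true)) ∈ D.I 2 := by
    rw [sub_neg_eq_add]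
    exact D.inv_congr le_rfl hXB (D.exp_sub_one_sub_mem hXB)
  have hg : (gc : R) - 1 - D.lin ((c + 2 : ℝ) : ℂ) ((c + 2 : ℝ) : ℂ) ∈ D.I 2 :=
    D.exp_sub_one_sub_mem (D.lin_mem _ _)
  have h1 := D.mul_congr ((D.I 1).neg_mem hXA) hA (D.G_sub hgcG) hg
  have h2 := D.mul_congr' ((D.I 1).neg_mem hXB) hB
    (D.G_sub (D.G.mul_mem (D.G.inv_mem heAG) hgcG)) h1
  have h3 : -((1 : ℂ) • D.X true)
      + (-((1 : ℂ) • D.X false) + D.lin ((c + 2 : ℝ) : ℂ) ((c + 2 : ℝ) : ℂ))
      = D.lin ((c + 1 : ℝ) : ℂ) ((c + 1 : ℝ) : ℂ) := by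
    unfold lin
    push_cast
    module
  rw [h3] at h2
  have hmem : eA⁻¹ * gc * eB⁻¹ ∈ D.S := by
    refine hcG _ (D.G.mul_mem (D.G.mul_mem (D.G.inv_mem heAG) hgcG) (D.G.inv_mem heBG)) _ _ ?_ ?_ h2
    · rw [Complex.ofReal_re]
      linarith
    · rw [Complex.ofReal_re]
      linarith
  obtain ⟨l, hl, hlg⟩ := hmem
  obtain ⟨ps, h0, h4, h5⟩ := (D.merge l hl 1 (by simp)).1 1 (by simp)
  refine ⟨ps, h0, h4, ?_⟩
  rw [h5, hlg, ← heA, ← heB]
  group

end Data

end Pool.Agent.Lib.Helper28.Split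

end
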