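import Mathlib
import Pool.Agent.Lib.Helper28.Split.OpenHalf

/-!
# The word model

`V N` is the space of functions on words of length at most `N` in two letters.  The algebra
`P N` of operators preserving the length filtration, with the two shift operators and the
commutator with the length operator, is an instance of `Data`.
-/

open NormedSpace Filter Topology

set_option linter.unusedSectionVars false
set_option synthInstance.maxHeartbeats 400000
set_option maxHeartbeats 4000000

noncomputable section

namespace Pool.Agent.Lib.Helper28.Split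

/-- Words of length at most `N`. -/
abbrev W (N : ℕ) : Type := {w : List Bool // w.length ≤ N}

instance (N : ℕ) : Finite (W N) := (List.finite_length_le Bool N).to_subtype

instance (N : ℕ) : Fintype (W N) := Fintype.ofFinite _

/-- Functions on words of length at most `N`. -/
def V (N : ℕ) : Type := W N → ℂ

instance (N : ℕ) : NormedAddCommGroup (V N) := inferInstanceAs (NormedAddCommGroup (W N → ℂ))

instance (N : ℕ) : NormedSpace ℂ (V N) := inferInstanceAs (NormedSpace ℂ (W N → ℂ))

instance (N : ℕ) : FiniteDimensional ℂ (V N) := inferInstanceAs (FiniteDimensional ℂ (W N → ℂ))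

lemma V.add_apply {N : ℕ} (u v : V N) (w : W N) : (u + v) w = u w + v w := rfl

lemma V.sub_apply {N : ℕ} (u v : V N) (w : W N) : (u - v) w = u w - v w := rfl

lemma V.smul_apply {N : ℕ} (c : ℂ) (v : V N) (w : W N) : (c • v) w = c * v w := rfl

lemma V.zero_apply {N : ℕ} (w : W N) : (0 : V N) w = 0 := rfl

lemma V.ext {N : ℕ} {u v : V N} (h : ∀ w, u w = v w) : u = v := funext h

namespace Model

variable (N : ℕ)

/-- The shift operator prepending the letter `i`. -/
def shiftFun (i : Bool) (u : V N) : V N := fun w =>
  match w with
  | ⟨[], _⟩ => 0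
  | ⟨j :: w', h⟩ => if j = i then u ⟨w', by
      rw [List.length_cons] at h
      omega⟩ else 0

/-- The shift operator as a linear map. -/
def shiftLin (i : Bool) : V N →ₗ[ℂ] V N where
  toFun := shiftFun N i
  map_add' := by
    intro u v
    refine V.ext (fun w => ?_)
    obtain ⟨w, h⟩ := w
    cases w with
    | nil =>
      rw [V.add_apply]
      simp [shiftFun]
    | cons j w' =>
      rw [V.add_apply]
      simp only [shiftFun, V.add_apply]
      split_ifs <;> simp
  map_smul' := by
    intro c u
    refine V.ext (fun w => ?_)
    obtain ⟨w, h⟩ := w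
    cases w with
    | nil =>
      rw [V.smul_apply]
      simp [shiftFun]
    | cons j w' =>
      rw [V.smul_apply]
      simp only [shiftFun, V.smul_apply, RingHom.id_apply]
      split_ifs <;> simp

/-- The shift operator as a continuous linear map. -/
def sh (i : Bool) : V N →L[ℂ] V N := LinearMap.toContinuousLinearMap (shiftLin N i)

lemma sh_apply (i : Bool) (u : V N) : sh N i u = shiftFun N i u := rfl

/-- The length operator. -/
def lenLin : V N →ₗ[ℂ] V N where
  toFun := fun u w => (w.1.length : ℂ) * u w
  map_add' := by
    intro u v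
    refine V.ext (fun w => ?_)
    change (w.1.length : ℂ) * (u w + v w) = (w.1.length : ℂ) * u w + (w.1.length : ℂ) * v w
    ring
  map_smul' := by
    intro c u
    refine V.ext (fun w => ?_)
    change (w.1.length : ℂ) * (c * u w) = c * ((w.1.length : ℂ) * u w)
    ring

/-- The length operator as a continuous linear map. -/
def len : V N →L[ℂ] V N := LinearMap.toContinuousLinearMap (lenLin N)

lemma len_apply (u : V N) (w : W N) : len N u w = (w.1.length : ℂ) * u w := rfl

/-- Functions vanishing on words of length less than `j`. -/
def Ej (j : ℕ) : Submodule ℂ (V N) where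
  carrier := {u | ∀ w : W N, w.1.length < j → u w = 0}
  add_mem' := by
    intro u v hu hv w hw
    rw [V.add_apply, hu w hw, hv w hw, add_zero]
  zero_mem' := fun _ _ => rfl
  smul_mem' := by
    intro c u hu w hw
    rw [V.smul_apply, hu w hw, mul_zero]

lemma mem_Ej {j : ℕ} {u : V N} : u ∈ Ej N j ↔ ∀ w : W N, w.1.length < j → u w = 0 := Iff.rfl

lemma Ej_le {j k : ℕ} (h : j ≤ k) : Ej N k ≤ Ej N j := fun _ hu w hw => hu w (by omega)

lemma len_mem {j : ℕ} {u : V N} (hu : u ∈ Ej N j) : len N u ∈ Ej N j := by
  intro w hw
  rw [len_apply, hu w hw, mul_zero]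

lemma sh_mem {j : ℕ} {u : V N} (i : Bool) (hu : u ∈ Ej N j) : sh N i u ∈ Ej N (j + 1) := by
  intro w hw
  rw [sh_apply]
  obtain ⟨w, h⟩ := w
  cases w with
  | nil => rfl
  | cons k w' =>
    simp only [shiftFun]
    split_ifs with hk
    · refine hu _ ?_
      change w'.length < j
      change (k :: w').length < j + 1 at hw
      rw [List.length_cons] at hw
      omega
    · rfl

/-- Operators preserving the length filtration. -/
def P : Subalgebra ℂ (V N →L[ℂ] V N) where
  carrier := {y | ∀ j, ∀ u ∈ Ej N j, y u ∈ Ej N j}
  mul_mem' := by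
    intro x y hx hy j u hu
    exact hx j _ (hy j u hu)
  one_mem' := fun _ _ hu => hu
  add_mem' := by
    intro x y hx hy j u hu
    exact (Ej N j).add_mem (hx j u hu) (hy j u hu)
  zero_mem' := fun j _ _ => (Ej N j).zero_mem
  algebraMap_mem' := by
    intro r j u hu
    have : (algebraMap ℂ (V N →L[ℂ] V N) r) u = r • u := by
      rw [Algebra.algebraMap_eq_smul_one]
      rfl
    rw [this]
    exact (Ej N j).smul_mem r hu

instance : FiniteDimensional ℂ (P N) :=
  inferInstanceAs (FiniteDimensional ℂ (Subalgebra.toSubmodule (P N)))

instance : CompleteSpace (P N) := FiniteDimensional.complete ℂ (P N)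

/-- The filtration of the algebra of operators. -/
def Ik (k : ℕ) : Submodule ℂ (P N) where
  carrier := {y | ∀ j, ∀ u ∈ Ej N j, (y : V N →L[ℂ] V N) u ∈ Ej N (j + k)}
  add_mem' := by
    intro x y hx hy j u hu
    exact (Ej N (j + k)).add_mem (hx j u hu) (hy j u hu)
  zero_mem' := fun j _ _ => (Ej N (j + k)).zero_mem
  smul_mem' := by
    intro c y hy j u hu
    exact (Ej N (j + k)).smul_mem c (hy j u hu)

lemma mem_Ik {k : ℕ} {y : P N} :
    y ∈ Ik N k ↔ ∀ j, ∀ u ∈ Ej N j, (y : V N →L[ℂ] V N) u ∈ Ej N (j + k) := Iff.rfl

/-- The length operator as an element of `P N`. -/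
def lenP : P N := ⟨len N, fun _ _ hu => len_mem N hu⟩

/-- The shift operators as elements of `P N`. -/
def shP (i : Bool) : P N := ⟨sh N i, fun _ _ hu => Ej_le N (Nat.le_succ _) (sh_mem N i hu)⟩

/-- The commutator with the length operator. -/
def der : P N →ₗ[ℂ] P N where
  toFun := fun y => lenP N * y - y * lenP N
  map_add' := by
    intro x y
    simp only [mul_add, add_mul]
    abel
  map_smul' := by
    intro c y
    rw [RingHom.id_apply, mul_smul_comm, smul_mul_assoc, smul_sub]

lemma der_apply (y : P N) (u : V N) (w : W N) :
    ((der N y : P N) : V N →L[ℂ] V N) u w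
      = (w.1.length : ℂ) * (y : V N →L[ℂ] V N) u w - (y : V N →L[ℂ] V N) (len N u) w := rfl

/-- The word model as filtered data. -/
def data : Data (P N) N where
  I := Ik N
  I_zero := by
    rw [eq_top_iff]
    intro y _ j u hu
    exact y.2 j u hu
  I_succ_le := by
    intro k y hy j u hu
    exact Ej_le N (by omega) (hy j u hu)
  I_mul := by
    intro j k x y hx hy m u hu
    have h1 := hx _ _ (hy m u hu)
    exact Ej_le N (by omega) h1
  I_top := by
    rw [eq_bot_iff]
    intro y hy
    rw [Submodule.mem_bot]
    apply Subtype.ext
    ext u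
    refine V.ext (fun w => ?_)
    have h1 := hy 0 u (fun w hw => absurd hw (Nat.not_lt_zero _))
    exact h1 w (by have := w.2; omega)
  δ := der N
  δ_mul := by
    intro x y
    change lenP N * (x * y) - (x * y) * lenP N
      = (lenP N * x - x * lenP N) * y + x * (lenP N * y - y * lenP N)
    simp only [mul_sub, sub_mul, mul_assoc]
    abel
  δ_I := by
    intro k y hy j u hu w hw
    have h1 : ((der N y - (k : ℂ) • y : P N) : V N →L[ℂ] V N) u w
        = ((w.1.length : ℂ) - k) * (y : V N →L[ℂ] V N) u w
          - (y : V N →L[ℂ] V N) (len N u) w := by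
      have h2 : ((der N y - (k : ℂ) • y : P N) : V N →L[ℂ] V N) u w
          = ((der N y : P N) : V N →L[ℂ] V N) u w - (k : ℂ) * (y : V N →L[ℂ] V N) u w := rfl
      rw [h2, der_apply]
      ring
    rw [h1]
    rcases Nat.lt_or_ge w.1.length (j + k) with hlt | hge
    · rw [hy j u hu w hlt, hy j _ (len_mem N hu) w hlt]
      ring
    · have hlen : w.1.length = j + k := by omega
      have h3 : (j : ℂ) • u - len N u ∈ Ej N (j + 1) := by
        intro w' hw'
        rw [V.sub_apply, V.smul_apply, len_apply]
        rcases Nat.lt_or_ge w'.1.length j with hlt' | hge'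
        · rw [hu w' hlt']
          simp
        · have : w'.1.length = j := by omega
          rw [this]
          simp
      have h4 := hy _ _ h3 w (by omega)
      rw [map_sub, map_smul, V.sub_apply, V.smul_apply] at h4
      rw [hlen]
      push_cast
      linear_combination h4
  X := shP N
  X_mem := by
    intro i j u hu
    exact sh_mem N i hu
  δ_X := by
    intro i
    apply Subtype.ext
    ext u
    refine V.ext (fun w => ?_)
    rw [der_apply]
    change (w.1.length : ℂ) * shiftFun N i u w - shiftFun N i (len N u) w = shiftFun N i u w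
    obtain ⟨w, h⟩ := w
    cases w with
    | nil => simp [shiftFun]
    | cons j w' =>
      simp only [shiftFun]
      split_ifs with hj
      · rw [len_apply]
        simp only [List.length_cons]
        push_cast
        ring
      · simp

end Model

end Pool.Agent.Lib.Helper28.Split

end
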