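import Mathlib
import Pool.Agent.Lib.Helper28.Split.Model

/-!
# Iterated Lie derivatives and the pairing with functions on words
-/

open NormedSpace Filter Topology

set_option linter.unusedSectionVars false

noncomputable section

namespace Pool.Agent.Lib.Helper28.Split

variable {E : Type*} [NormedAddCommGroup E] [NormedSpace ℂ E]

/-- Smooth (infinitely complex differentiable) maps. -/
abbrev Sm (φ : E → E) : Prop := ContDiff ℂ (⊤ : ℕ∞) φ

/-- The Lie derivative of `φ` along the vector field `g`. -/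
def lie (g φ : E → E) : E → E := fun x => fderiv ℂ φ x (g x)

lemma Sm.lie {g φ : E → E} (hg : Sm g) (hφ : Sm φ) : Sm (lie g φ) := by
  have h1 : ContDiff ℂ (⊤ : ℕ∞) (fderiv ℂ φ) := hφ.fderiv_right (m := (⊤ : ℕ∞)) (by simp)
  exact h1.clm_apply hg

lemma Sm.differentiable {φ : E → E} (hφ : Sm φ) : Differentiable ℂ φ :=
  ContDiff.differentiable hφ (by simp)

lemma lie_lin (a b : ℂ) (g h φ : E → E) :
    lie (fun x => a • g x + b • h x) φ = fun x => a • lie g φ x + b • lie h φ x := by
  funext x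
  unfold lie
  rw [map_add, map_smul, map_smul]

lemma lie_lin_right (a b : ℂ) (g : E → E) {φ ψ : E → E} (hφ : Sm φ) (hψ : Sm ψ) :
    lie g (fun x => a • φ x + b • ψ x) = fun x => a • lie g φ x + b • lie g ψ x := by
  funext x
  unfold lie
  have h1 : DifferentiableAt ℂ φ x := hφ.differentiable x
  have h2 : DifferentiableAt ℂ ψ x := hψ.differentiable x
  have h3 : fderiv ℂ (fun x => a • φ x + b • ψ x) x = a • fderiv ℂ φ x + b • fderiv ℂ ψ x := by
    have := ((h1.hasFDerivAt.const_smul a).add (h2.hasFDerivAt.const_smul b)).fderiv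
    exact this
  rw [h3]
  rfl

lemma Sm.lin {φ ψ : E → E} (hφ : Sm φ) (hψ : Sm ψ) (a b : ℂ) :
    Sm (fun x => a • φ x + b • ψ x) :=
  (hφ.const_smul a).add (hψ.const_smul b)

variable (f : Bool → E → E) (x0 : E)

/-- `Bn T n u φ = ∑_{|w| ≤ n} T^{|w|} u(w) (D_w φ)(x0)`, defined by recursion. -/
def Bn (T : ℝ) : ℕ → (List Bool → ℂ) → (E → E) → E
  | 0, u, φ => u [] • φ x0
  | n + 1, u, φ => u [] • φ x0 + (T : ℂ) • (Bn T n (fun w => u (false :: w)) (lie (f false) φ)
      + Bn T n (fun w => u (true :: w)) (lie (f true) φ))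

lemma Bn_succ (T : ℝ) (n : ℕ) (u : List Bool → ℂ) (φ : E → E) :
    Bn f x0 T (n + 1) u φ
      = u [] • φ x0 + (T : ℂ) • (Bn f x0 T n (fun w => u (false :: w)) (lie (f false) φ)
      + Bn f x0 T n (fun w => u (true :: w)) (lie (f true) φ)) := rfl

lemma Bn_congr (T : ℝ) (n : ℕ) (u v : List Bool → ℂ) (φ : E → E)
    (h : ∀ w, w.length ≤ n → u w = v w) : Bn f x0 T n u φ = Bn f x0 T n v φ := by
  induction n generalizing u v φ with
  | zero =>
    unfold Bn
    rw [h [] (by simp)]
  | succ n ih =>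
    unfold Bn
    rw [h [] (by simp), ih (fun w => u (false :: w)) (fun w => v (false :: w)) _
      (fun w hw => h _ (by simpa using hw)), ih (fun w => u (true :: w)) (fun w => v (true :: w)) _
      (fun w hw => h _ (by simpa using hw))]

lemma Bn_zero (T : ℝ) (n : ℕ) (φ : E → E) : Bn f x0 T n (fun _ => 0) φ = 0 := by
  induction n generalizing φ with
  | zero => simp [Bn]
  | succ n ih => simp [Bn, ih]

lemma Bn_lin (T : ℝ) (n : ℕ) (a b : ℂ) (u v : List Bool → ℂ) (φ : E → E) :
    Bn f x0 T n (fun w => a * u w + b * v w) φ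
      = a • Bn f x0 T n u φ + b • Bn f x0 T n v φ := by
  induction n generalizing u v φ with
  | zero =>
    unfold Bn
    module
  | succ n ih =>
    unfold Bn
    rw [ih, ih]
    module

lemma Bn_lin_right (hf : ∀ i, Sm (f i)) (T : ℝ) (n : ℕ) (a b : ℂ) (u : List Bool → ℂ)
    {φ ψ : E → E} (hφ : Sm φ) (hψ : Sm ψ) :
    Bn f x0 T n u (fun x => a • φ x + b • ψ x)
      = a • Bn f x0 T n u φ + b • Bn f x0 T n u ψ := by
  induction n generalizing u φ ψ with
  | zero =>
    unfold Bn
    module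
  | succ n ih =>
    unfold Bn
    rw [lie_lin_right a b _ hφ hψ, lie_lin_right a b _ hφ hψ,
      ih _ ((hf _).lie hφ) ((hf _).lie hψ), ih _ ((hf _).lie hφ) ((hf _).lie hψ)]
    module

/-- Passing from level `n` to level `n+1` changes the pairing by `O(T^{n+1})`. -/
lemma Bn_succ_sub (n : ℕ) (u : List Bool → ℂ) (φ : E → E) :
    ∃ C : ℝ, 0 ≤ C ∧ ∀ T : ℝ, 0 < T → T ≤ 1 →
      ‖Bn f x0 T (n + 1) u φ - Bn f x0 T n u φ‖ ≤ C * T ^ (n + 1) := by
  induction n generalizing u φ with
  | zero =>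
    refine ⟨‖(u [false] • lie (f false) φ x0 + u [true] • lie (f true) φ x0)‖, norm_nonneg _, ?_⟩
    intro T hT _
    have h1 : Bn f x0 T (0 + 1) u φ - Bn f x0 T 0 u φ
        = (T : ℂ) • (u [false] • lie (f false) φ x0 + u [true] • lie (f true) φ x0) := by
      simp only [Bn]
      module
    rw [h1, norm_smul, Complex.norm_real, Real.norm_of_nonneg hT.le, zero_add, pow_one, mul_comm]
  | succ n ih =>
    obtain ⟨C1, hC1, h1⟩ := ih (fun w => u (false :: w)) (lie (f false) φ)
    obtain ⟨C2, hC2, h2⟩ := ih (fun w => u (true :: w)) (lie (f true) φ)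
    refine ⟨C1 + C2, by positivity, ?_⟩
    intro T hT hT1
    have h3 : Bn f x0 T (n + 1 + 1) u φ - Bn f x0 T (n + 1) u φ
        = (T : ℂ) • ((Bn f x0 T (n + 1) (fun w => u (false :: w)) (lie (f false) φ)
            - Bn f x0 T n (fun w => u (false :: w)) (lie (f false) φ))
          + (Bn f x0 T (n + 1) (fun w => u (true :: w)) (lie (f true) φ)
            - Bn f x0 T n (fun w => u (true :: w)) (lie (f true) φ))) := by
      rw [Bn_succ f x0 T (n + 1) u φ, Bn_succ f x0 T n u φ]
      module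
    rw [h3, norm_smul, Complex.norm_real, Real.norm_of_nonneg hT.le]
    calc T * ‖_ + _‖ ≤ T * (C1 * T ^ (n + 1) + C2 * T ^ (n + 1)) := by
          refine mul_le_mul_of_nonneg_left ?_ hT.le
          exact (norm_add_le _ _).trans (add_le_add (h1 T hT hT1) (h2 T hT hT1))
      _ = (C1 + C2) * T ^ (n + 1 + 1) := by ring

/-- The pairing is bounded for `0 < T ≤ 1`. -/
lemma Bn_bdd (n : ℕ) (u : List Bool → ℂ) (φ : E → E) :
    ∃ C : ℝ, 0 ≤ C ∧ ∀ T : ℝ, 0 < T → T ≤ 1 → ‖Bn f x0 T n u φ‖ ≤ C := by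
  induction n generalizing u φ with
  | zero => exact ⟨‖u [] • φ x0‖, norm_nonneg _, fun T _ _ => le_of_eq (by simp only [Bn])⟩
  | succ n ih =>
    obtain ⟨C1, hC1, h1⟩ := ih (fun w => u (false :: w)) (lie (f false) φ)
    obtain ⟨C2, hC2, h2⟩ := ih (fun w => u (true :: w)) (lie (f true) φ)
    refine ⟨‖u [] • φ x0‖ + (C1 + C2), by positivity, ?_⟩
    intro T hT hT1
    rw [Bn]
    refine (norm_add_le _ _).trans (add_le_add le_rfl ?_)
    rw [norm_smul, Complex.norm_real, Real.norm_of_nonneg hT.le]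
    calc T * ‖_ + _‖ ≤ 1 * (C1 + C2) := by
          refine mul_le_mul hT1 ?_ (norm_nonneg _) zero_le_one
          exact (norm_add_le _ _).trans (add_le_add (h1 T hT hT1) (h2 T hT hT1))
      _ = C1 + C2 := one_mul _

/-- The shift operator on all functions on words. -/
def shTot (i : Bool) (u : List Bool → ℂ) : List Bool → ℂ
  | [] => 0
  | j :: w => if j = i then u w else 0

lemma Bn_shift_succ (T : ℝ) (n : ℕ) (i : Bool) (u : List Bool → ℂ) (φ : E → E) :
    Bn f x0 T (n + 1) (shTot i u) φ = (T : ℂ) • Bn f x0 T n u (lie (f i) φ) := by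
  rw [Bn]
  cases i with
  | false =>
    have h1 : (fun w => shTot false u (false :: w)) = u := by
      funext w
      simp [shTot]
    have h2 : (fun w => shTot false u (true :: w)) = fun _ => 0 := by
      funext w
      simp [shTot]
    rw [h1, h2, Bn_zero]
    simp [shTot]
  | true =>
    have h1 : (fun w => shTot true u (true :: w)) = u := by
      funext w
      simp [shTot]
    have h2 : (fun w => shTot true u (false :: w)) = fun _ => 0 := by
      funext w
      simp [shTot]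
    rw [h1, h2, Bn_zero]
    simp [shTot]

lemma Bn_shift (N : ℕ) (i : Bool) (u : List Bool → ℂ) (φ : E → E) :
    ∃ C : ℝ, 0 ≤ C ∧ ∀ T : ℝ, 0 < T → T ≤ 1 →
      ‖Bn f x0 T N (shTot i u) φ - (T : ℂ) • Bn f x0 T N u (lie (f i) φ)‖ ≤ C * T ^ (N + 1) := by
  cases N with
  | zero =>
    refine ⟨‖u [] • lie (f i) φ x0‖, norm_nonneg _, ?_⟩
    intro T hT _
    have h1 : Bn f x0 T 0 (shTot i u) φ - (T : ℂ) • Bn f x0 T 0 u (lie (f i) φ)
        = -((T : ℂ) • (u [] • lie (f i) φ x0)) := by
      simp [Bn, shTot]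
    rw [h1, norm_neg, norm_smul, Complex.norm_real, Real.norm_of_nonneg hT.le, zero_add, pow_one,
      mul_comm]
  | succ n =>
    obtain ⟨C, hC, h⟩ := Bn_succ_sub f x0 n u (lie (f i) φ)
    refine ⟨C, hC, ?_⟩
    intro T hT hT1
    rw [Bn_shift_succ, ← smul_sub, norm_smul, Complex.norm_real, Real.norm_of_nonneg hT.le,
      norm_sub_rev]
    calc T * ‖_‖ ≤ T * (C * T ^ (n + 1)) := mul_le_mul_of_nonneg_left (h T hT hT1) hT.le
      _ = C * T ^ (n + 1 + 1) := by ring

/-- Extension by zero of a function on words of length at most `N`. -/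
def extV {N : ℕ} (u : V N) : List Bool → ℂ := fun w => if h : w.length ≤ N then u ⟨w, h⟩ else 0

/-- The pairing between a function on short words and a test function. -/
def pair (N : ℕ) (T : ℝ) (u : V N) (φ : E → E) : E := Bn f x0 T N (extV u) φ

lemma pair_lin (N : ℕ) (T : ℝ) (a b : ℂ) (u v : V N) (φ : E → E) :
    pair f x0 N T (a • u + b • v) φ = a • pair f x0 N T u φ + b • pair f x0 N T v φ := by
  unfold pair
  rw [← Bn_lin]
  refine Bn_congr f x0 T N _ _ φ (fun w hw => ?_)
  simp only [extV, dif_pos hw, V.add_apply, V.smul_apply]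

lemma pair_zero (N : ℕ) (T : ℝ) (φ : E → E) : pair f x0 N T 0 φ = 0 := by
  have := pair_lin f x0 N T 0 0 0 0 φ
  simpa using this

lemma pair_smul (N : ℕ) (T : ℝ) (a : ℂ) (u : V N) (φ : E → E) :
    pair f x0 N T (a • u) φ = a • pair f x0 N T u φ := by
  have := pair_lin f x0 N T a 0 u 0 φ
  simpa using this

lemma pair_add (N : ℕ) (T : ℝ) (u v : V N) (φ : E → E) :
    pair f x0 N T (u + v) φ = pair f x0 N T u φ + pair f x0 N T v φ := by
  have := pair_lin f x0 N T 1 1 u v φ
  simpa using this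

lemma pair_sum {ι : Type*} (N : ℕ) (T : ℝ) (s : Finset ι) (u : ι → V N) (φ : E → E) :
    pair f x0 N T (∑ i ∈ s, u i) φ = ∑ i ∈ s, pair f x0 N T (u i) φ := by
  classical
  induction s using Finset.induction_on with
  | empty => simp [pair_zero]
  | insert a s ha ih => rw [Finset.sum_insert ha, Finset.sum_insert ha, pair_add, ih]

lemma pair_lin_right (hf : ∀ i, Sm (f i)) (N : ℕ) (T : ℝ) (a b : ℂ) (u : V N) {φ ψ : E → E}
    (hφ : Sm φ) (hψ : Sm ψ) : pair f x0 N T u (fun x => a • φ x + b • ψ x)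
      = a • pair f x0 N T u φ + b • pair f x0 N T u ψ :=
  Bn_lin_right f x0 hf T N a b _ hφ hψ

lemma pair_shift (N : ℕ) (i : Bool) (u : V N) (φ : E → E) :
    ∃ C : ℝ, 0 ≤ C ∧ ∀ T : ℝ, 0 < T → T ≤ 1 →
      ‖pair f x0 N T (Model.sh N i u) φ - (T : ℂ) • pair f x0 N T u (lie (f i) φ)‖
        ≤ C * T ^ (N + 1) := by
  obtain ⟨C, hC, h⟩ := Bn_shift f x0 N i (extV u) φ
  refine ⟨C, hC, ?_⟩
  intro T hT hT1
  have h1 : pair f x0 N T (Model.sh N i u) φ = Bn f x0 T N (shTot i (extV u)) φ := by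
    unfold pair
    refine Bn_congr f x0 T N _ _ φ (fun w hw => ?_)
    cases w with
    | nil => simp [extV, shTot, Model.sh_apply, Model.shiftFun]
    | cons j w' =>
      have hw' : w'.length ≤ N := by
        rw [List.length_cons] at hw
        omega
      simp only [extV, dif_pos hw, shTot, Model.sh_apply, Model.shiftFun, dif_pos hw']
  rw [h1]
  exact h T hT hT1

/-- The value of the pairing at the vacuum vector is `φ x0`. -/
def e0 (N : ℕ) : V N := fun w => if w.1 = [] then 1 else 0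

lemma Bn_e0 (T : ℝ) (n : ℕ) (u : List Bool → ℂ) (hu0 : u [] = 1) (hu : ∀ w, w ≠ [] → u w = 0)
    (φ : E → E) : Bn f x0 T n u φ = φ x0 := by
  cases n with
  | zero => rw [Bn, hu0, one_smul]
  | succ n =>
    have h1 : (fun w => u (false :: w)) = fun _ => 0 := by
      funext w
      exact hu _ (by simp)
    have h2 : (fun w => u (true :: w)) = fun _ => 0 := by
      funext w
      exact hu _ (by simp)
    rw [Bn, hu0, h1, h2, Bn_zero, Bn_zero]
    simp

lemma pair_e0 (N : ℕ) (T : ℝ) (φ : E → E) : pair f x0 N T (e0 N) φ = φ x0 := by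
  unfold pair
  refine Bn_e0 f x0 T N _ ?_ ?_ φ
  · simp [extV, e0]
  · intro w hw
    unfold extV
    split_ifs with h
    · simp [e0, hw]
    · rfl

end Pool.Agent.Lib.Helper28.Split

end
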