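import Mathlib
import Pool.Agent.Lib.Helper28.Split.Defs
import Pool.Agent.Lib.Helper28.Split.Pairing

/-!
# Flows of smooth vector fields for short time: existence, a priori bound, Taylor expansion
-/

open Filter Topology Metric Set

set_option linter.unusedSectionVars false

noncomputable section

namespace Pool.Agent.Lib.Helper28.Split

variable {E : Type*} [NormedAddCommGroup E] [NormedSpace ℂ E]

/-- `γ` solves `γ' = v(γ)` on `[0, 1]`. -/
def IsSol (v : E → E) (γ : ℝ → E) : Prop :=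
  ∀ s ∈ Icc (0 : ℝ) 1, HasDerivWithinAt γ (v (γ s)) (Icc 0 1) s

lemma flowsTo_iff {v : E → E} {x y : E} :
    FlowsTo v x y ↔ ∃ γ : ℝ → E, γ 0 = x ∧ γ 1 = y ∧ IsSol v γ := Iff.rfl

/-- A priori bound. -/
lemma sol_mem_ball {g : E → E} {x0 : E} {M T : ℝ} (hM : ∀ x, ‖x - x0‖ ≤ 1 → ‖g x‖ ≤ M)
    (hT : 0 ≤ T) (hTM : T * M ≤ 1 / 4) {γ : ℝ → E} (hγ : IsSol ((T : ℂ) • g) γ)
    (h0 : ‖γ 0 - x0‖ ≤ 1 / 2) : ∀ s ∈ Icc (0 : ℝ) 1, ‖γ s - x0‖ ≤ 1 := by
  have hcont : ContinuousOn γ (Icc 0 1) := fun s hs => (hγ s hs).continuousWithinAt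
  have hkey : ∀ ⦃s⦄, s ∈ Icc (0 : ℝ) 1 → ‖γ s - x0‖ ≤ 1 / 2 + s / 2 := by
    refine image_norm_le_of_norm_deriv_right_lt_deriv_boundary' (f := fun s => γ s - x0)
      (f' := fun s => ((T : ℂ) • g) (γ s)) (B := fun s => 1 / 2 + s / 2) (B' := fun _ => 1 / 2)
      (hcont.sub continuousOn_const) ?_ (by simpa using h0) (by fun_prop) ?_ ?_
    · intro s hs
      have h1 := (hγ s ⟨hs.1, hs.2.le⟩).sub_const x0
      exact h1.mono_of_mem_nhdsWithin (Icc_mem_nhdsGE_of_mem hs)
    · intro s _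
      have h1 : HasDerivAt (fun s : ℝ => 1 / 2 + s / 2) (1 / 2) s := by
        have := ((hasDerivAt_id s).div_const 2).const_add (1 / 2)
        simpa using this
      exact h1.hasDerivWithinAt
    · intro s hs heq
      have h1 : ‖g (γ s)‖ ≤ M := by
        refine hM _ ?_
        have : ‖γ s - x0‖ = 1 / 2 + s / 2 := heq
        rw [this]
        linarith [hs.2]
      rw [Pi.smul_apply, norm_smul, Complex.norm_real, Real.norm_of_nonneg hT]
      have h2 : T * ‖g (γ s)‖ ≤ T * M := mul_le_mul_of_nonneg_left h1 hT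
      linarith
  intro s hs
  have := hkey hs
  linarith [hs.2]

lemma sol_displacement {g : E → E} {x0 : E} {M T : ℝ} (hM : ∀ x, ‖x - x0‖ ≤ 1 → ‖g x‖ ≤ M)
    (hT : 0 ≤ T) {γ : ℝ → E} (hγ : IsSol ((T : ℂ) • g) γ)
    (hball : ∀ s ∈ Icc (0 : ℝ) 1, ‖γ s - x0‖ ≤ 1) : ‖γ 1 - γ 0‖ ≤ T * M := by
  have h1 := norm_image_sub_le_of_norm_deriv_le_segment' (f := γ)
    (f' := fun s => ((T : ℂ) • g) (γ s)) (C := T * M) hγ (fun s hs => by
      rw [Pi.smul_apply, norm_smul, Complex.norm_real, Real.norm_of_nonneg hT]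
      exact mul_le_mul_of_nonneg_left (hM _ (hball s ⟨hs.1, hs.2.le⟩)) hT) 1
      (right_mem_Icc.mpr zero_le_one)
  simpa using h1

/-- Short-time existence, uniformly for starting points near `x0`. -/
lemma exists_sol [FiniteDimensional ℂ E] {g : E → E} (hg : Sm g) (x0 : E) :
    ∃ M : ℝ, 0 ≤ M ∧ (∀ x, ‖x - x0‖ ≤ 1 → ‖g x‖ ≤ M) ∧
      ∀ T : ℝ, 0 ≤ T → T * M ≤ 1 / 4 → ∀ y, ‖y - x0‖ ≤ 1 / 2 →
        ∃ γ : ℝ → E, γ 0 = y ∧ IsSol ((T : ℂ) • g) γ := by
  have hproper : ProperSpace E := FiniteDimensional.proper ℂ E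
  have hcomplete : CompleteSpace E := FiniteDimensional.complete ℂ E
  have hgc : Continuous g := hg.continuous
  have hgd : Continuous (fderiv ℂ g) := hg.continuous_fderiv (by simp)
  obtain ⟨M0, hM0⟩ := (isCompact_closedBall x0 1).exists_bound_of_continuousOn hgc.continuousOn
  obtain ⟨K0, hK0⟩ := (isCompact_closedBall x0 1).exists_bound_of_continuousOn hgd.continuousOn
  refine ⟨max M0 0, le_max_right _ _, ?_, ?_⟩
  · intro x hx
    exact (hM0 x (by rwa [mem_closedBall, dist_eq_norm])).trans (le_max_left _ _)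
  · intro T hT hTM y hy
    have hL0 : 0 ≤ T * max M0 0 := mul_nonneg hT (le_max_right _ _)
    have hKT0 : 0 ≤ T * max K0 0 := mul_nonneg hT (le_max_right _ _)
    have hPL : IsPicardLindelof (fun _ : ℝ => (T : ℂ) • g) (tmin := 0) (tmax := 1)
        ⟨0, left_mem_Icc.mpr zero_le_one⟩ x0 1 (1 / 2) (T * max M0 0).toNNReal
        (T * max K0 0).toNNReal := by
      refine IsPicardLindelof.of_time_independent ?_ ?_ ?_
      · intro x hx
        rw [Real.coe_toNNReal _ hL0, Pi.smul_apply, norm_smul, Complex.norm_real,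
          Real.norm_of_nonneg hT]
        exact mul_le_mul_of_nonneg_left ((hM0 x (by simpa using hx)).trans (le_max_left _ _)) hT
      · refine Convex.lipschitzOnWith_of_nnnorm_fderiv_le (𝕜 := ℂ) ?_ ?_ (convex_closedBall x0 _)
        · intro x _
          exact (hg.differentiable x).const_smul (T : ℂ)
        · intro x hx
          have h1 : fderiv ℂ ((T : ℂ) • g) x = (T : ℂ) • fderiv ℂ g x :=
            ((hg.differentiable x).hasFDerivAt.const_smul (T : ℂ)).fderiv
          rw [← NNReal.coe_le_coe, coe_nnnorm, Real.coe_toNNReal _ hKT0, h1, norm_smul,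
            Complex.norm_real, Real.norm_of_nonneg hT]
          exact mul_le_mul_of_nonneg_left ((hK0 x (by simpa using hx)).trans (le_max_left _ _)) hT
      · rw [Real.coe_toNNReal _ hL0]
        simp only [sub_zero, sub_self, NNReal.coe_one, NNReal.coe_div, NNReal.coe_ofNat]
        rw [max_eq_left zero_le_one]
        linarith
    obtain ⟨γ, h0, h1⟩ := hPL.exists_eq_forall_mem_Icc_hasDerivWithinAt (x := y) (by
      rw [mem_closedBall, dist_eq_norm]
      simpa using hy)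
    exact ⟨γ, h0, h1⟩

/-- The Taylor polynomial of degree `n - 1` of `φ` along the flow of `T g` started at `y`. -/
def tay (g : E → E) (T : ℝ) (n : ℕ) (φ : E → E) (y : E) (s : ℝ) : E :=
  ∑ m ∈ Finset.range n, ((m.factorial : ℂ)⁻¹ * ((s * T : ℝ) : ℂ) ^ m) • ((lie g)^[m] φ) y

lemma tay_zero_time (g : E → E) (T : ℝ) (n : ℕ) (φ : E → E) (y : E) :
    tay g T (n + 1) φ y 0 = φ y := by
  unfold tay
  rw [Finset.sum_range_succ']
  simp

lemma tay_hasDerivAt (g : E → E) (T : ℝ) (n : ℕ) (φ : E → E) (y : E) (s : ℝ) :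
    HasDerivAt (tay g T (n + 1) φ y) ((T : ℂ) • tay g T n (lie g φ) y s) s := by
  induction n with
  | zero =>
    have h1 : tay g T (0 + 1) φ y = fun _ => φ y := by
      funext s
      simp [tay]
    have h2 : (T : ℂ) • tay g T 0 (lie g φ) y s = 0 := by simp [tay]
    rw [h1, h2]
    exact hasDerivAt_const _ _
  | succ n ih =>
    have h1 : tay g T (n + 1 + 1) φ y = fun s => tay g T (n + 1) φ y s
        + ((((n + 1).factorial : ℂ)⁻¹ * ((s * T : ℝ) : ℂ) ^ (n + 1)) •
          ((lie g)^[n + 1] φ) y) := by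
      funext s
      unfold tay
      rw [Finset.sum_range_succ]
    have h2 : tay g T (n + 1) (lie g φ) y s = tay g T n (lie g φ) y s
        + (((n.factorial : ℂ)⁻¹ * ((s * T : ℝ) : ℂ) ^ n) • ((lie g)^[n] (lie g φ)) y) := by
      unfold tay
      rw [Finset.sum_range_succ]
    rw [h1, h2, smul_add]
    refine ih.add ?_
    have h3 : HasDerivAt (fun s : ℝ => ((s * T : ℝ) : ℂ)) ((T : ℝ) : ℂ) s := by
      have h4 : HasDerivAt (fun s : ℝ => s * T) T s := by
        simpa using (hasDerivAt_id s).mul_const T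
      exact h4.ofReal_comp
    have h5 : HasDerivAt (fun s : ℝ => ((n + 1).factorial : ℂ)⁻¹ * ((s * T : ℝ) : ℂ) ^ (n + 1))
        (((n + 1).factorial : ℂ)⁻¹ * (((n + 1 : ℕ) : ℂ) * ((s * T : ℝ) : ℂ) ^ n * (T : ℂ))) s := by
      have h6 := (h3.pow (n + 1)).const_mul (((n + 1).factorial : ℂ)⁻¹)
      simpa using h6
    have h7 := h5.smul_const (((lie g)^[n + 1] φ) y)
    have h8 : (T : ℂ) • (((n.factorial : ℂ)⁻¹ * ((s * T : ℝ) : ℂ) ^ n) •
        ((lie g)^[n] (lie g φ)) y)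
        = (((n + 1).factorial : ℂ)⁻¹ * (((n + 1 : ℕ) : ℂ) * ((s * T : ℝ) : ℂ) ^ n * (T : ℂ))) •
          ((lie g)^[n + 1] φ) y := by
      rw [smul_smul, Function.iterate_succ_apply]
      congr 1
      rw [Nat.factorial_succ]
      have h9 : (n.factorial : ℂ) ≠ 0 := by exact_mod_cast Nat.factorial_ne_zero n
      have h10 : ((n : ℂ) + 1) ≠ 0 := by exact_mod_cast Nat.succ_ne_zero n
      push_cast
      field_simp
    rw [h8]
    exact h7

/-- Taylor expansion along the flow with a uniform remainder. -/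
lemma taylor_bound [FiniteDimensional ℂ E] {g : E → E} (hg : Sm g) (x0 : E) (n : ℕ) :
    ∀ {φ : E → E}, Sm φ → ∃ C : ℝ, 0 ≤ C ∧ ∀ T : ℝ, 0 < T → ∀ γ : ℝ → E,
      IsSol ((T : ℂ) • g) γ → (∀ s ∈ Icc (0 : ℝ) 1, ‖γ s - x0‖ ≤ 1) →
      ∀ s ∈ Icc (0 : ℝ) 1, ‖φ (γ s) - tay g T n φ (γ 0) s‖ ≤ C * T ^ n := by
  have hproper : ProperSpace E := FiniteDimensional.proper ℂ E
  induction n with
  | zero =>
    intro φ hφ
    obtain ⟨C, hC⟩ := (isCompact_closedBall x0 1).exists_bound_of_continuousOn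
      hφ.continuous.continuousOn
    refine ⟨max C 0, le_max_right _ _, ?_⟩
    intro T _ γ _ hball s hs
    have h1 : tay g T 0 φ (γ 0) s = 0 := by simp [tay]
    rw [h1, sub_zero, pow_zero, mul_one]
    exact (hC _ (by rw [mem_closedBall, dist_eq_norm]; exact hball s hs)).trans (le_max_left _ _)
  | succ n ih =>
    intro φ hφ
    obtain ⟨C, hC0, hC⟩ := ih (hg.lie hφ)
    refine ⟨C, hC0, ?_⟩
    intro T hT γ hγ hball s hs
    have h1 : ∀ t ∈ Icc (0 : ℝ) 1, HasDerivWithinAt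
        (fun t => φ (γ t) - tay g T (n + 1) φ (γ 0) t)
        ((T : ℂ) • (lie g φ (γ t) - tay g T n (lie g φ) (γ 0) t)) (Icc 0 1) t := by
      intro t ht
      have h2 : HasDerivWithinAt (fun t => φ (γ t)) ((T : ℂ) • lie g φ (γ t)) (Icc 0 1) t := by
        have h3 : HasFDerivAt φ ((fderiv ℂ φ (γ t)).restrictScalars ℝ) (γ t) :=
          (hφ.differentiable (γ t)).hasFDerivAt.restrictScalars ℝ
        have h4 := h3.comp_hasDerivWithinAt t (hγ t ht)
        have h5 : ((fderiv ℂ φ (γ t)).restrictScalars ℝ) (((T : ℂ) • g) (γ t))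
            = (T : ℂ) • lie g φ (γ t) := by
          rw [ContinuousLinearMap.coe_restrictScalars', Pi.smul_apply, map_smul]
          rfl
        rw [h5] at h4
        exact h4
      rw [smul_sub]
      exact h2.sub (tay_hasDerivAt g T n φ (γ 0) t).hasDerivWithinAt
    have h6 := norm_image_sub_le_of_norm_deriv_le_segment' (C := T * (C * T ^ n)) h1
      (fun t ht => by
        rw [norm_smul, Complex.norm_real, Real.norm_of_nonneg hT.le]
        exact mul_le_mul_of_nonneg_left (hC T hT γ hγ hball t ⟨ht.1, ht.2.le⟩) hT.le) s hs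
    simp only [tay_zero_time, sub_self, sub_zero] at h6
    refine h6.trans ?_
    have h7 : 0 ≤ T * (C * T ^ n) := by positivity
    calc T * (C * T ^ n) * s ≤ T * (C * T ^ n) * 1 := mul_le_mul_of_nonneg_left hs.2 h7
      _ = C * T ^ (n + 1) := by ring

end Pool.Agent.Lib.Helper28.Split

end
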