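import Mathlib

/-!
# Complex differentiable maps on finite-dimensional spaces are smooth
-/

open Filter Topology Metric MeasureTheory Set

set_option linter.unusedSectionVars false

noncomputable section

namespace Pool.Agent.Lib.Helper28.Split

variable {E : Type*} [NormedAddCommGroup E] [NormedSpace ℂ E]
variable {F : Type*} [NormedAddCommGroup F] [NormedSpace ℂ F] [CompleteSpace F]

lemma holo_line_differentiable {f : E → F} (hf : Differentiable ℂ f) (x v : E) :
    Differentiable ℂ (fun z : ℂ => f (x + z • v)) := by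
  intro z
  have h1 : DifferentiableAt ℂ (fun z : ℂ => x + z • v) z :=
    (differentiableAt_const x).add (differentiableAt_id.smul_const v)
  exact (hf _).comp z h1

lemma holo_fderiv_eq_deriv {f : E → F} (hf : Differentiable ℂ f) (x v : E) :
    fderiv ℂ f x v = deriv (fun z : ℂ => f (x + z • v)) 0 := by
  have h1 : HasDerivAt (fun z : ℂ => x + z • v) v 0 := by
    have := ((hasDerivAt_id (0 : ℂ)).smul_const v).const_add x
    simpa using this
  have h2 : HasFDerivAt f (fderiv ℂ f (x + (0 : ℂ) • v)) (x + (0 : ℂ) • v) :=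
    (hf _).hasFDerivAt
  have h3 := h2.comp_hasDerivAt (0 : ℂ) h1
  have h4 : deriv (fun z : ℂ => f (x + z • v)) 0 = fderiv ℂ f (x + (0 : ℂ) • v) v := h3.deriv
  rw [h4, zero_smul, add_zero]

/-- Cauchy estimate for the derivative. -/
lemma holo_fderiv_norm_le {f : E → F} (hf : Differentiable ℂ f) (p : E) (B : ℝ)
    (hB : ∀ q : E, ‖q - p‖ ≤ 1 → ‖f q‖ ≤ B) : ‖fderiv ℂ f p‖ ≤ B := by
  have hB0 : 0 ≤ B := (norm_nonneg _).trans (hB p (by simp))
  refine ContinuousLinearMap.opNorm_le_bound _ hB0 (fun w => ?_)
  by_cases hw : w = 0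
  · simp [hw]
  have hw' : 0 < ‖w‖ := norm_pos_iff.mpr hw
  rw [holo_fderiv_eq_deriv hf]
  have h1 := Complex.norm_deriv_le_of_forall_mem_sphere_norm_le (c := 0) (R := ‖w‖⁻¹) (C := B)
    (f := fun z : ℂ => f (p + z • w)) (inv_pos.mpr hw')
    ((holo_line_differentiable hf p w).diffContOnCl) (fun z hz => by
      refine hB _ ?_
      rw [add_sub_cancel_left, norm_smul]
      have : ‖z‖ = ‖w‖⁻¹ := by simpa using hz
      rw [this, inv_mul_cancel₀ hw'.ne'])
  rwa [div_inv_eq_mul] at h1

/-- Directional derivatives of complex differentiable maps are complex differentiable. -/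
lemma holo_fderiv_apply [FiniteDimensional ℂ E] [FiniteDimensional ℂ F] {f : E → F}
    (hf : Differentiable ℂ f) (v : E) : Differentiable ℂ (fun x => fderiv ℂ f x v) := by
  intro x0
  borelize E
  have : SecondCountableTopology (E →L[ℂ] F) := by
    have : FiniteDimensional ℂ (E →L[ℂ] F) := inferInstance
    have : ProperSpace (E →L[ℂ] F) := FiniteDimensional.proper ℂ _
    infer_instance
  have hproper : ProperSpace E := FiniteDimensional.proper ℂ E
  -- the integral representation
  have h1 : ∀ x, fderiv ℂ f x v = (2 * (Real.pi : ℂ) * Complex.I)⁻¹ •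
      ∫ θ in (0 : ℝ)..2 * Real.pi, (deriv (circleMap 0 1) θ * (circleMap 0 1 θ) ^ (-2 : ℤ)) •
        f (x + circleMap 0 1 θ • v) := by
    intro x
    rw [holo_fderiv_eq_deriv hf]
    have h3 := DiffContOnCl.deriv_eq_smul_circleIntegral (c := 0) (R := 1) one_pos
      (holo_line_differentiable hf x v).diffContOnCl
    have h4 : deriv (fun z : ℂ => f (x + z • v)) 0 = (2 * (Real.pi : ℂ) * Complex.I)⁻¹ •
        ∮ z in C(0, 1), (1 / (z - 0) ^ 2 : ℂ) • f (x + z • v) := by
      rw [h3, smul_smul, inv_mul_cancel₀ Complex.two_pi_I_ne_zero, one_smul]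
    rw [h4]
    unfold circleIntegral
    congr 1
    refine intervalIntegral.integral_congr (fun θ _ => ?_)
    simp only [sub_zero, smul_smul, zpow_neg, one_div]
    norm_cast
  have h2 : (fun x => fderiv ℂ f x v) = fun x => (2 * (Real.pi : ℂ) * Complex.I)⁻¹ •
      ∫ θ in (0 : ℝ)..2 * Real.pi, (deriv (circleMap 0 1) θ * (circleMap 0 1 θ) ^ (-2 : ℤ)) •
        f (x + circleMap 0 1 θ • v) := funext h1
  rw [h2]
  set k : ℝ → ℂ := fun θ => deriv (circleMap 0 1) θ * (circleMap 0 1 θ) ^ (-2 : ℤ) with hk
  have hkc : Continuous k := by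
    have h3 : k = fun θ => circleMap 0 1 θ * Complex.I * (circleMap 0 1 θ) ^ (-2 : ℤ) := by
      funext θ
      simp [hk, deriv_circleMap]
    rw [h3]
    refine ((continuous_circleMap 0 1).mul continuous_const).mul ?_
    refine (continuous_circleMap 0 1).zpow₀ _ (fun θ => Or.inl ?_)
    have : circleMap 0 1 θ ≠ 0 := circleMap_ne_center one_ne_zero
    exact this
  have hkn : ∀ θ, ‖k θ‖ ≤ 1 := by
    intro θ
    simp [hk, deriv_circleMap]
  have hfc : Continuous f := hf.continuous
  -- a bound for `f` on a large ball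
  obtain ⟨B, hB⟩ : ∃ B : ℝ, ∀ q : E, ‖q - x0‖ ≤ ‖v‖ + 2 → ‖f q‖ ≤ B := by
    obtain ⟨B, hB⟩ := (isCompact_closedBall x0 (‖v‖ + 2)).exists_bound_of_continuousOn
      hfc.continuousOn
    exact ⟨B, fun q hq => hB q (by rwa [mem_closedBall, dist_eq_norm])⟩
  have hcm : ∀ θ : ℝ, ‖circleMap 0 1 θ‖ = 1 := fun θ => by simp
  have hkey := intervalIntegral.hasFDerivAt_integral_of_dominated_of_fderiv_le
    (𝕜 := ℂ) (μ := volume) (a := 0) (b := 2 * Real.pi) (x₀ := x0) (s := ball x0 1)
    (F := fun x θ => k θ • f (x + circleMap 0 1 θ • v))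
    (F' := fun x θ => k θ • fderiv ℂ f (x + circleMap 0 1 θ • v)) (bound := fun _ => B)
    (ball_mem_nhds _ one_pos)
    (Eventually.of_forall (fun x => by
      refine Continuous.aestronglyMeasurable ?_
      refine hkc.smul (hfc.comp ?_)
      exact continuous_const.add ((continuous_circleMap 0 1).smul continuous_const)))
    (by
      refine Continuous.intervalIntegrable ?_ _ _
      refine hkc.smul (hfc.comp ?_)
      exact continuous_const.add ((continuous_circleMap 0 1).smul continuous_const))
    (by
      refine Measurable.aestronglyMeasurable ?_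
      refine hkc.measurable.smul ((measurable_fderiv ℂ f).comp ?_)
      refine Continuous.measurable ?_
      exact continuous_const.add ((continuous_circleMap 0 1).smul continuous_const))
    (by
      refine ae_of_all _ (fun θ _ x hx => ?_)
      rw [norm_smul]
      have h3 : ‖fderiv ℂ f (x + circleMap 0 1 θ • v)‖ ≤ B := by
        refine holo_fderiv_norm_le hf _ _ (fun q hq => hB q ?_)
        have h4 : q - x0 = (q - (x + circleMap 0 1 θ • v)) + (x - x0) + circleMap 0 1 θ • v := by
          module
        rw [h4]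
        have h5 : ‖x - x0‖ ≤ 1 := by
          rw [mem_ball, dist_eq_norm] at hx
          exact hx.le
        have h6 : ‖circleMap 0 1 θ • v‖ = ‖v‖ := by rw [norm_smul, hcm, one_mul]
        have h7 := norm_add_le ((q - (x + circleMap 0 1 θ • v)) + (x - x0)) (circleMap 0 1 θ • v)
        have h8 := norm_add_le (q - (x + circleMap 0 1 θ • v)) (x - x0)
        linarith
      calc ‖k θ‖ * ‖_‖ ≤ 1 * B := mul_le_mul (hkn θ) h3 (norm_nonneg _) zero_le_one
        _ = B := one_mul _)
    (by simp)
    (by
      refine ae_of_all _ (fun θ _ x _ => ?_)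
      have h3 : HasFDerivAt (fun x => f (x + circleMap 0 1 θ • v))
          (fderiv ℂ f (x + circleMap 0 1 θ • v)) x := by
        have h4 : HasFDerivAt f (fderiv ℂ f (x + circleMap 0 1 θ • v))
          (x + circleMap 0 1 θ • v) := (hf _).hasFDerivAt
        exact (hasFDerivAt_comp_add_right (circleMap 0 1 θ • v)).mpr h4
      exact h3.const_smul (k θ))
  exact (hkey.differentiableAt).const_smul _

/-- Complex differentiable maps between finite-dimensional spaces are `C^n` for all finite `n`. -/
lemma holo_contDiff_nat [FiniteDimensional ℂ E] [FiniteDimensional ℂ F] (n : ℕ) :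
    ∀ {f : E → F}, Differentiable ℂ f → ContDiff ℂ n f := by
  induction n with
  | zero =>
    intro f hf
    have := hf.continuous
    exact contDiff_zero.mpr this
  | succ n ih =>
    intro f hf
    have h1 : ((n + 1 : ℕ) : WithTop ℕ∞) = (n : WithTop ℕ∞) + 1 := by push_cast; rfl
    rw [h1, contDiff_succ_iff_fderiv_apply]
    refine ⟨hf, ?_, fun y => ih (holo_fderiv_apply hf y)⟩
    intro h
    exact absurd h (by simp)

/-- Complex differentiable maps between finite-dimensional spaces are smooth. -/
theorem holo_contDiff [FiniteDimensional ℂ E] [FiniteDimensional ℂ F] {f : E → F}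
    (hf : Differentiable ℂ f) : ContDiff ℂ (⊤ : ℕ∞) f :=
  contDiff_infty.mpr (fun n => holo_contDiff_nat n hf)

end Pool.Agent.Lib.Helper28.Split

end
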