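import Mathlib
import Pool.Agent.Lib.Helper28.Split.Pairing

/-!
# The pairing and exponentials of the shift operators
-/

open NormedSpace Filter Topology

set_option linter.unusedSectionVars false

noncomputable section

namespace Pool.Agent.Lib.Helper28.Split

/-- Action of an element of the operator algebra on a vector. -/
def act {N : ℕ} (y : Model.P N) (u : V N) : V N := (y : V N →L[ℂ] V N) u

lemma act_mul {N : ℕ} (x y : Model.P N) (u : V N) : act (x * y) u = act x (act y u) := rfl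

lemma act_one {N : ℕ} (u : V N) : act (1 : Model.P N) u = u := rfl

lemma act_smul {N : ℕ} (c : ℂ) (y : Model.P N) (u : V N) : act (c • y) u = c • act y u := rfl

lemma act_add {N : ℕ} (x y : Model.P N) (u : V N) : act (x + y) u = act x u + act y u := rfl

lemma act_sum {N : ℕ} {ι : Type*} (s : Finset ι) (x : ι → Model.P N) (u : V N) :
    act (∑ i ∈ s, x i) u = ∑ i ∈ s, act (x i) u := by
  classical
  induction s using Finset.induction_on with
  | empty => rfl
  | insert a s ha ih => rw [Finset.sum_insert ha, Finset.sum_insert ha, act_add, ih]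

lemma exp_eq_sum {N : ℕ} (x : Model.P N) (hx : x ∈ (Model.data N).I 1) :
    exp x = ∑ m ∈ Finset.range (N + 1), ((m.factorial : ℂ)⁻¹) • x ^ m := by
  have h1 := hasSum_exp x
  have h2 : HasSum (fun m : ℕ => ((m.factorial : ℂ)⁻¹) • x ^ m)
      (∑ m ∈ Finset.range (N + 1), ((m.factorial : ℂ)⁻¹) • x ^ m) := by
    refine hasSum_sum_of_ne_finset_zero (fun m hm => ?_)
    have hm' : N + 1 ≤ m := by
      rw [Finset.mem_range] at hm
      omega
    have h3 := (Model.data N).pow_mem hx m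
    rw [(Model.data N).I_eq_bot hm', Submodule.mem_bot] at h3
    rw [h3, smul_zero]
  exact h1.unique h2

variable {E : Type*} [NormedAddCommGroup E] [NormedSpace ℂ E]
variable (f : Bool → E → E) (x0 : E)

/-- The vector field `a f₀ + b f₁`. -/
def vf (a b : ℂ) : E → E := fun x => a • f false x + b • f true x

lemma vf_sm (hf : ∀ i, Sm (f i)) (a b : ℂ) : Sm (vf f a b) := (hf false).lin (hf true) a b

lemma iter_sm {g φ : E → E} (hg : Sm g) (hφ : Sm φ) (m : ℕ) : Sm ((lie g)^[m] φ) := by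
  induction m generalizing φ with
  | zero => exact hφ
  | succ m ih =>
    rw [Function.iterate_succ_apply]
    exact ih (hg.lie hφ)

lemma pair_op (hf : ∀ i, Sm (f i)) (N : ℕ) (a b : ℂ) (u : V N) {φ : E → E} (hφ : Sm φ) :
    ∃ C : ℝ, 0 ≤ C ∧ ∀ T : ℝ, 0 < T → T ≤ 1 →
      ‖pair f x0 N T (act ((Model.data N).lin a b) u) φ
        - (T : ℂ) • pair f x0 N T u (lie (vf f a b) φ)‖ ≤ C * T ^ (N + 1) := by
  obtain ⟨C1, hC1, h1⟩ := pair_shift f x0 N false u φ
  obtain ⟨C2, hC2, h2⟩ := pair_shift f x0 N true u φ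
  refine ⟨‖a‖ * C1 + ‖b‖ * C2, by positivity, ?_⟩
  intro T hT hT1
  have h3 : act ((Model.data N).lin a b) u = a • Model.sh N false u + b • Model.sh N true u := rfl
  have h4 : lie (vf f a b) φ = fun x => a • lie (f false) φ x + b • lie (f true) φ x :=
    lie_lin a b _ _ _
  rw [h3, h4, pair_lin, pair_lin_right f x0 hf N T a b u ((hf _).lie hφ) ((hf _).lie hφ)]
  have h5 : a • pair f x0 N T (Model.sh N false u) φ + b • pair f x0 N T (Model.sh N true u) φ
      - (T : ℂ) • (a • pair f x0 N T u (lie (f false) φ) + b • pair f x0 N T u (lie (f true) φ))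
      = a • (pair f x0 N T (Model.sh N false u) φ - (T : ℂ) • pair f x0 N T u (lie (f false) φ))
        + b • (pair f x0 N T (Model.sh N true u) φ
          - (T : ℂ) • pair f x0 N T u (lie (f true) φ)) := by
    module
  rw [h5]
  refine (norm_add_le _ _).trans ?_
  rw [norm_smul, norm_smul, add_mul, mul_assoc, mul_assoc]
  exact add_le_add (mul_le_mul_of_nonneg_left (h1 T hT hT1) (norm_nonneg _))
    (mul_le_mul_of_nonneg_left (h2 T hT hT1) (norm_nonneg _))

lemma pair_pow (hf : ∀ i, Sm (f i)) (N : ℕ) (a b : ℂ) (u : V N) (m : ℕ) {φ : E → E}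
    (hφ : Sm φ) :
    ∃ C : ℝ, 0 ≤ C ∧ ∀ T : ℝ, 0 < T → T ≤ 1 →
      ‖pair f x0 N T (act ((Model.data N).lin a b ^ m) u) φ
        - ((T : ℂ) ^ m) • pair f x0 N T u ((lie (vf f a b))^[m] φ)‖ ≤ C * T ^ (N + 1) := by
  induction m generalizing φ with
  | zero =>
    refine ⟨0, le_rfl, ?_⟩
    intro T hT _
    rw [pow_zero, pow_zero, act_one, one_smul, Function.iterate_zero_apply, sub_self, norm_zero,
      zero_mul]
  | succ m ih =>
    obtain ⟨C1, hC1, h1⟩ := ih ((vf_sm f hf a b).lie hφ)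
    obtain ⟨C2, hC2, h2⟩ := pair_op f x0 hf N a b (act ((Model.data N).lin a b ^ m) u) hφ
    refine ⟨C2 + C1, by positivity, ?_⟩
    intro T hT hT1
    have h3 : act ((Model.data N).lin a b ^ (m + 1)) u
        = act ((Model.data N).lin a b) (act ((Model.data N).lin a b ^ m) u) := by
      rw [pow_succ', act_mul]
    rw [h3, Function.iterate_succ_apply]
    have h4 : pair f x0 N T (act ((Model.data N).lin a b) (act ((Model.data N).lin a b ^ m) u)) φ
        - ((T : ℂ) ^ (m + 1)) • pair f x0 N T u ((lie (vf f a b))^[m] (lie (vf f a b) φ))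
        = (pair f x0 N T (act ((Model.data N).lin a b) (act ((Model.data N).lin a b ^ m) u)) φ
          - (T : ℂ) • pair f x0 N T (act ((Model.data N).lin a b ^ m) u) (lie (vf f a b) φ))
          + (T : ℂ) • (pair f x0 N T (act ((Model.data N).lin a b ^ m) u) (lie (vf f a b) φ)
            - ((T : ℂ) ^ m) • pair f x0 N T u ((lie (vf f a b))^[m] (lie (vf f a b) φ))) := by
      rw [pow_succ]
      module
    rw [h4]
    refine (norm_add_le _ _).trans ?_
    rw [norm_smul, Complex.norm_real, Real.norm_of_nonneg hT.le, add_mul]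
    refine add_le_add (h2 T hT hT1) ?_
    calc T * ‖_‖ ≤ 1 * (C1 * T ^ (N + 1)) :=
          mul_le_mul hT1 (h1 T hT hT1) (norm_nonneg _) zero_le_one
      _ = C1 * T ^ (N + 1) := one_mul _

/-- Pairing with the exponential of `a X₀ + b X₁` is, up to `O(T^{N+1})`, the Taylor polynomial
of the flow of `a f₀ + b f₁`. -/
lemma pair_exp (hf : ∀ i, Sm (f i)) (N : ℕ) (a b : ℂ) (u : V N) {φ : E → E} (hφ : Sm φ) :
    ∃ C : ℝ, 0 ≤ C ∧ ∀ T : ℝ, 0 < T → T ≤ 1 →
      ‖pair f x0 N T (act (exp ((Model.data N).lin a b)) u) φ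
        - ∑ m ∈ Finset.range (N + 1), ((m.factorial : ℂ)⁻¹ * (T : ℂ) ^ m) •
          pair f x0 N T u ((lie (vf f a b))^[m] φ)‖ ≤ C * T ^ (N + 1) := by
  choose C hC h using fun m => pair_pow f x0 hf N a b u m hφ
  refine ⟨∑ m ∈ Finset.range (N + 1), C m, Finset.sum_nonneg (fun m _ => hC m), ?_⟩
  intro T hT hT1
  have h1 : act (exp ((Model.data N).lin a b)) u
      = ∑ m ∈ Finset.range (N + 1), ((m.factorial : ℂ)⁻¹) •
        act ((Model.data N).lin a b ^ m) u := by
    rw [exp_eq_sum _ ((Model.data N).lin_mem a b), act_sum]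
    rfl
  rw [h1, pair_sum, ← Finset.sum_sub_distrib, Finset.sum_mul]
  refine (norm_sum_le _ _).trans (Finset.sum_le_sum (fun m _ => ?_))
  have h2 : pair f x0 N T (((m.factorial : ℂ)⁻¹) • act ((Model.data N).lin a b ^ m) u) φ
      - ((m.factorial : ℂ)⁻¹ * (T : ℂ) ^ m) • pair f x0 N T u ((lie (vf f a b))^[m] φ)
      = ((m.factorial : ℂ)⁻¹) • (pair f x0 N T (act ((Model.data N).lin a b ^ m) u) φ
        - ((T : ℂ) ^ m) • pair f x0 N T u ((lie (vf f a b))^[m] φ)) := by
    rw [pair_smul]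
    module
  rw [h2, norm_smul]
  have h3 : ‖((m.factorial : ℂ)⁻¹)‖ ≤ 1 := by
    rw [norm_inv, Complex.norm_natCast]
    exact inv_le_one_of_one_le₀ (by exact_mod_cast Nat.factorial_pos m)
  calc ‖((m.factorial : ℂ)⁻¹)‖ * ‖_‖ ≤ 1 * (C m * T ^ (N + 1)) :=
        mul_le_mul h3 (h m T hT hT1) (norm_nonneg _) zero_le_one
    _ = C m * T ^ (N + 1) := one_mul _

end Pool.Agent.Lib.Helper28.Split

end
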