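import Mathlib
import Pool.Agent.Lib.Helper28.Split.OpenHalf
import Pool.Agent.Lib.Helper28.Split.Flow
import Pool.Agent.Lib.Helper28.Split.PairExp
import Pool.Agent.Lib.Helper28.Split.Holo

/-!
# Splitting methods of all orders with coefficients of positive real part
-/

open NormedSpace Filter Topology Metric Set

set_option linter.unusedSectionVars false

noncomputable section

namespace Pool.Agent.Lib.Helper28.Split

variable {E : Type*} [NormedAddCommGroup E] [NormedSpace ℂ E]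

/-- The family of sets `P T` is nonempty and within `O(T)` of `x0`. -/
def Near (x0 : E) (P : ℝ → Set E) : Prop :=
  ∃ C : ℝ, 0 ≤ C ∧ ∀ᶠ T in 𝓝[>] (0 : ℝ), (P T).Nonempty ∧ ∀ y ∈ P T, ‖y - x0‖ ≤ C * T

/-- The family of sets `P T` is represented by `u` up to `O(T^{N+1})`. -/
def Rep (f : Bool → E → E) (x0 : E) (N : ℕ) (P : ℝ → Set E) (u : V N) : Prop :=
  ∀ φ : E → E, Sm φ → ∃ C : ℝ, 0 ≤ C ∧ ∀ᶠ T in 𝓝[>] (0 : ℝ), ∀ y ∈ P T,
    ‖φ y - pair f x0 N T u φ‖ ≤ C * T ^ (N + 1)

/-- End points of the flow of `T g` started in `P T`. -/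
def flowStep (g : E → E) (P : ℝ → Set E) : ℝ → Set E :=
  fun T => {z | ∃ y ∈ P T, FlowsTo ((T : ℂ) • g) y z}

lemma eventually_small {A B : ℝ} (hB : 0 < B) :
    ∀ᶠ T in 𝓝[>] (0 : ℝ), T * A ≤ B := by
  have h1 : Tendsto (fun T : ℝ => T * A) (𝓝[>] 0) (𝓝 (0 * A)) :=
    (tendsto_nhdsWithin_of_tendsto_nhds tendsto_id).mul_const A
  rw [zero_mul] at h1
  exact h1.eventually (eventually_le_nhds hB)

lemma eventually_pos' : ∀ᶠ T in 𝓝[>] (0 : ℝ), 0 < T := eventually_mem_nhdsWithin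

lemma near_step [FiniteDimensional ℂ E] {g : E → E} (hg : Sm g) {x0 : E} {P : ℝ → Set E}
    (hP : Near x0 P) : Near x0 (flowStep g P) := by
  obtain ⟨C, hC0, hC⟩ := hP
  obtain ⟨M, hM0, hM, hex⟩ := exists_sol hg x0
  refine ⟨M + C, by positivity, ?_⟩
  filter_upwards [hC, eventually_small (A := M) (B := 1 / 4) (by norm_num),
    eventually_small (A := C) (B := 1 / 2) (by norm_num), eventually_pos'] with T h1 h2 h3 h4
  obtain ⟨⟨y0, hy0⟩, h5⟩ := h1
  have h6 : ∀ y ∈ P T, ‖y - x0‖ ≤ 1 / 2 := fun y hy => (h5 y hy).trans (by linarith)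
  constructor
  · obtain ⟨γ, hγ0, hγ⟩ := hex T h4.le h2 y0 (h6 y0 hy0)
    exact ⟨γ 1, y0, hy0, γ, hγ0, rfl, hγ⟩
  · rintro z ⟨y, hy, γ, hγ0, hγ1, hγ⟩
    have h7 := sol_mem_ball hM h4.le h2 hγ (by rw [hγ0]; exact h6 y hy)
    have h8 := sol_displacement hM h4.le hγ h7
    rw [hγ0, hγ1] at h8
    have h9 : z - x0 = (z - y) + (y - x0) := by abel
    rw [h9]
    have h10 := norm_add_le (z - y) (y - x0)
    have h11 := h5 y hy
    linarith

lemma rep_step [FiniteDimensional ℂ E] {f : Bool → E → E} (hf : ∀ i, Sm (f i)) {x0 : E} {N : ℕ}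
    {P : ℝ → Set E} {u : V N} (hP : Near x0 P) (hR : Rep f x0 N P u) (a b : ℂ) :
    Rep f x0 N (flowStep (vf f a b) P) (act (exp ((Model.data N).lin a b)) u) := by
  intro φ hφ
  set g := vf f a b with hg
  have hgs : Sm g := vf_sm f hf a b
  obtain ⟨C, hC0, hC⟩ := hP
  obtain ⟨M, hM0, hM, hex⟩ := exists_sol hgs x0
  obtain ⟨C1, hC10, hC1⟩ := taylor_bound hgs x0 (N + 1) hφ
  choose C2 hC20 hC2 using fun m : ℕ => hR ((lie g)^[m] φ) (iter_sm hgs hφ m)
  obtain ⟨C3, hC30, hC3⟩ := pair_exp f x0 hf N a b u hφ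
  refine ⟨C1 + (∑ m ∈ Finset.range (N + 1), C2 m) + C3, ?_, ?_⟩
  · have : 0 ≤ ∑ m ∈ Finset.range (N + 1), C2 m := Finset.sum_nonneg (fun m _ => hC20 m)
    positivity
  have hall : ∀ᶠ T in 𝓝[>] (0 : ℝ), ∀ m ∈ Finset.range (N + 1), ∀ y ∈ P T,
      ‖((lie g)^[m] φ) y - pair f x0 N T u ((lie g)^[m] φ)‖ ≤ C2 m * T ^ (N + 1) :=
    (Filter.eventually_all_finset _).mpr (fun m _ => hC2 m)
  filter_upwards [hC, eventually_small (A := M) (B := 1 / 4) (by norm_num),
    eventually_small (A := C) (B := 1 / 2) (by norm_num), eventually_pos', hall,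
    eventually_small (A := 1) (B := 1) one_pos] with T h1 h2 h3 h4 h5 h6
  rw [mul_one] at h6
  rintro z ⟨y, hy, γ, hγ0, hγ1, hγ⟩
  have hy2 : ‖y - x0‖ ≤ 1 / 2 := (h1.2 y hy).trans (by linarith)
  have h7 := sol_mem_ball hM h4.le h2 hγ (by rw [hγ0]; exact hy2)
  have h8 := hC1 T h4 γ hγ h7 1 (right_mem_Icc.mpr zero_le_one)
  rw [hγ0, hγ1] at h8
  have h9 := hC3 T h4 h6
  have h10 : ‖tay g T (N + 1) φ y 1
      - ∑ m ∈ Finset.range (N + 1), ((m.factorial : ℂ)⁻¹ * (T : ℂ) ^ m) •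
        pair f x0 N T u ((lie g)^[m] φ)‖ ≤ (∑ m ∈ Finset.range (N + 1), C2 m) * T ^ (N + 1) := by
    unfold tay
    rw [← Finset.sum_sub_distrib, Finset.sum_mul]
    refine (norm_sum_le _ _).trans (Finset.sum_le_sum (fun m hm => ?_))
    rw [one_mul, ← smul_sub, norm_smul]
    have h11 : ‖(m.factorial : ℂ)⁻¹ * (T : ℂ) ^ m‖ ≤ 1 := by
      rw [norm_mul, norm_inv, Complex.norm_natCast, norm_pow, Complex.norm_real,
        Real.norm_of_nonneg h4.le]
      have h12 : ((m.factorial : ℝ))⁻¹ ≤ 1 :=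
        inv_le_one_of_one_le₀ (by exact_mod_cast Nat.factorial_pos m)
      have h13 : T ^ m ≤ 1 := pow_le_one₀ h4.le h6
      calc ((m.factorial : ℝ))⁻¹ * T ^ m ≤ 1 * 1 :=
            mul_le_mul h12 h13 (by positivity) zero_le_one
        _ = 1 := one_mul _
    calc ‖(m.factorial : ℂ)⁻¹ * (T : ℂ) ^ m‖ * ‖_‖ ≤ 1 * (C2 m * T ^ (N + 1)) :=
          mul_le_mul h11 (h5 m hm y hy) (norm_nonneg _) zero_le_one
      _ = C2 m * T ^ (N + 1) := one_mul _
  rw [norm_sub_rev] at h9
  have h14 : φ z - pair f x0 N T (act (exp ((Model.data N).lin a b)) u) φ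
      = (φ z - tay g T (N + 1) φ y 1)
        + (tay g T (N + 1) φ y 1
          - ∑ m ∈ Finset.range (N + 1), ((m.factorial : ℂ)⁻¹ * (T : ℂ) ^ m) •
            pair f x0 N T u ((lie g)^[m] φ))
        + ((∑ m ∈ Finset.range (N + 1), ((m.factorial : ℂ)⁻¹ * (T : ℂ) ^ m) •
            pair f x0 N T u ((lie g)^[m] φ))
          - pair f x0 N T (act (exp ((Model.data N).lin a b)) u) φ) := by
    abel
  rw [h14]
  refine (norm_add_le _ _).trans ?_
  refine (add_le_add (norm_add_le _ _) le_rfl).trans ?_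
  rw [add_mul, add_mul]
  exact add_le_add (add_le_add h8 h10) h9

lemma near_base (x0 : E) : Near x0 (fun _ => {x0}) :=
  ⟨0, le_rfl, Eventually.of_forall (fun T => ⟨singleton_nonempty _, fun y hy => by
    rw [mem_singleton_iff.mp hy]; simp⟩)⟩

lemma rep_base (f : Bool → E → E) (x0 : E) (N : ℕ) : Rep f x0 N (fun _ => {x0}) (e0 N) := by
  intro φ _
  refine ⟨0, le_rfl, Eventually.of_forall (fun T y hy => ?_)⟩
  rw [mem_singleton_iff.mp hy, pair_e0]
  simp

/-- End points of the composition of flows along a list of letters and coefficients. -/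
def endPts (f : Bool → E → E) (x0 : E) : List (Bool × ℂ) → ℝ → Set E
  | [] => fun _ => {x0}
  | p :: l => flowStep (p.2 • f p.1) (endPts f x0 l)

lemma near_endPts [FiniteDimensional ℂ E] {f : Bool → E → E} (hf : ∀ i, Sm (f i)) (x0 : E)
    (l : List (Bool × ℂ)) : Near x0 (endPts f x0 l) := by
  induction l with
  | nil => exact near_base x0
  | cons p l ih => exact near_step ((hf p.1).const_smul p.2) ih

lemma rep_endPts [FiniteDimensional ℂ E] {f : Bool → E → E} (hf : ∀ i, Sm (f i)) (x0 : E) (N : ℕ)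
    (l : List (Bool × ℂ)) :
    Rep f x0 N (endPts f x0 l) (act (((Model.data N).pr l : (Model.P N)ˣ) : Model.P N) (e0 N)) := by
  induction l with
  | nil => exact rep_base f x0 N
  | cons p l ih =>
    obtain ⟨i, e⟩ := p
    rw [Data.pr_cons, Units.val_mul, act_mul, uexp_val]
    cases i with
    | false =>
      have h1 := rep_step hf (near_endPts hf x0 l) ih e 0
      have h2 : vf f e 0 = e • f false := by
        funext x
        simp [vf]
      have h3 : (Model.data N).lin e 0 = e • (Model.data N).X false := by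
        simp [Data.lin]
      rw [h2, h3] at h1
      exact h1
    | true =>
      have h1 := rep_step hf (near_endPts hf x0 l) ih 0 e
      have h2 : vf f 0 e = e • f true := by
        funext x
        simp [vf]
      have h3 : (Model.data N).lin 0 e = e • (Model.data N).X true := by
        simp [Data.lin]
      rw [h2, h3] at h1
      exact h1

lemma splitFlowsTo_iff {f : Bool → E → E} {x0 : E} (c T : ℝ) (hc : 0 < c) (ps : List (ℂ × ℂ)) :
    ∀ z, SplitFlowsTo (f false) (f true) T (ps.map (fun p => (p.1 / (c : ℂ), p.2 / (c : ℂ)))) x0 z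
      ↔ z ∈ endPts f x0 (Data.flat ps) (T / c) := by
  have hc' : (c : ℂ) ≠ 0 := by exact_mod_cast hc.ne'
  induction ps with
  | nil =>
    intro z
    exact Iff.rfl
  | cons p ps ih =>
    intro z
    have h1 : (p.2 / (c : ℂ) * (T : ℂ)) • f true = ((T / c : ℝ) : ℂ) • (p.2 • f true) := by
      rw [smul_smul]
      congr 1
      push_cast
      field_simp
    have h2 : (p.1 / (c : ℂ) * (T : ℂ)) • f false = ((T / c : ℝ) : ℂ) • (p.1 • f false) := by
      rw [smul_smul]
      congr 1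
      push_cast
      field_simp
    rw [List.map_cons]
    simp only [SplitFlowsTo, Data.flat, endPts, flowStep, Set.mem_ofPred_eq]
    rw [h1, h2]
    constructor
    · rintro ⟨y, w, hy, hw, hz⟩
      exact ⟨w, ⟨y, (ih y).mp hy, hw⟩, hz⟩
    · rintro ⟨w, ⟨y, hy, hw⟩, hz⟩
      exact ⟨y, w, (ih y).mpr hy, hw, hz⟩

/-- **Main theorem.** For every `N` there is a splitting method of order `N` all of whose
coefficients have positive real part. -/
theorem exists_hasOrder (N : ℕ) : ∃ ps : List (ℂ × ℂ), ps ≠ [] ∧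
    (∀ p ∈ ps, 0 < p.1.re ∧ 0 < p.2.re) ∧ HasOrder N ps := by
  obtain ⟨c, hc, ps, hps0, hps, heq⟩ := (Model.data N).exists_splitting
  refine ⟨ps.map (fun p => (p.1 / (c : ℂ), p.2 / (c : ℂ))), by simpa using hps0, ?_, ?_⟩
  · intro p hp
    obtain ⟨q, hq, rfl⟩ := List.mem_map.mp hp
    have h1 := hps q hq
    constructor
    · change 0 < (q.1 / (c : ℂ)).re
      rw [Complex.div_ofReal_re]
      exact div_pos h1.1 hc
    · change 0 < (q.2 / (c : ℂ)).re
      rw [Complex.div_ofReal_re]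
      exact div_pos h1.2 hc
  · intro d f₀ f₁ hf₀ hf₁ x₀
    set f : Bool → EuclideanSpace ℂ (Fin d) → EuclideanSpace ℂ (Fin d) :=
      fun i => if i then f₁ else f₀ with hf
    have hfs : ∀ i, Sm (f i) := by
      intro i
      cases i with
      | false => exact holo_contDiff hf₀
      | true => exact holo_contDiff hf₁
    have hff : f false = f₀ := rfl
    have hft : f true = f₁ := rfl
    -- the exact flow
    have hN1 : Near x₀ (flowStep (vf f (c : ℂ) (c : ℂ)) (fun _ => {x₀})) :=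
      near_step (vf_sm f hfs _ _) (near_base x₀)
    have hR1 := rep_step hfs (near_base x₀) (rep_base f x₀ N) (c : ℂ) (c : ℂ)
    -- the splitting
    have hN2 := near_endPts hfs x₀ (Data.flat ps)
    have hR2 := rep_endPts hfs x₀ N (Data.flat ps)
    rw [heq, uexp_val] at hR2
    have hid : Sm (id : EuclideanSpace ℂ (Fin d) → EuclideanSpace ℂ (Fin d)) := contDiff_id
    obtain ⟨C1, hC10, hC1⟩ := hR1 id hid
    obtain ⟨C2, hC20, hC2⟩ := hR2 id hid
    obtain ⟨_, _, hN1⟩ := hN1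
    obtain ⟨_, _, hN2⟩ := hN2
    have hev := (hC1.and hC2).and (hN1.and hN2)
    rw [eventually_nhdsWithin_iff, Metric.eventually_nhds_iff] at hev
    obtain ⟨ε, hε, hev⟩ := hev
    refine ⟨(C1 + C2) / c ^ (N + 1), ε * c, mul_pos hε hc, ?_⟩
    intro T hT hT2
    have hTc : 0 < T / c := div_pos hT hc
    have hTc2 : T / c < ε := (div_lt_iff₀ hc).mpr hT2
    obtain ⟨⟨h1, h2⟩, ⟨⟨h3, _⟩, ⟨h4, _⟩⟩⟩ := hev (y := T / c) (by
      rw [Real.dist_eq, sub_zero, abs_of_pos hTc]
      exact hTc2) hTc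
    have hc' : (c : ℂ) ≠ 0 := by exact_mod_cast hc.ne'
    have h5 : ∀ y, FlowsTo ((T : ℂ) • (f₀ + f₁)) x₀ y ↔
        y ∈ flowStep (vf f (c : ℂ) (c : ℂ)) (fun _ => {x₀}) (T / c) := by
      intro y
      have h6 : ((T / c : ℝ) : ℂ) • vf f (c : ℂ) (c : ℂ) = (T : ℂ) • (f₀ + f₁) := by
        funext x
        have h7 : ((T / c : ℝ) : ℂ) * (c : ℂ) = (T : ℂ) := by
          push_cast
          field_simp
        simp only [vf, hff, hft, Pi.smul_apply, Pi.add_apply]
        rw [smul_add, smul_smul, smul_smul, h7, smul_add]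
      unfold flowStep
      rw [Set.mem_ofPred_eq, h6]
      simp
    have h6 : ∀ z, SplitFlowsTo f₀ f₁ T (ps.map (fun p => (p.1 / (c : ℂ), p.2 / (c : ℂ)))) x₀ z
        ↔ z ∈ endPts f x₀ (Data.flat ps) (T / c) := by
      intro z
      have := splitFlowsTo_iff (f := f) (x0 := x₀) c T hc ps z
      rwa [hff, hft] at this
    refine ⟨?_, ?_, ?_⟩
    · obtain ⟨y, hy⟩ := h3
      exact ⟨y, (h5 y).mpr hy⟩
    · obtain ⟨z, hz⟩ := h4
      exact ⟨z, (h6 z).mpr hz⟩
    · intro y z hy hz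
      have h7 := h1 y ((h5 y).mp hy)
      have h8 := h2 z ((h6 z).mp hz)
      simp only [id] at h7 h8
      rw [norm_sub_rev] at h8
      have h9 : y - z = (y - pair f x₀ N (T / c)
            (act (exp ((Model.data N).lin (c : ℂ) (c : ℂ))) (e0 N)) id)
          + (pair f x₀ N (T / c) (act (exp ((Model.data N).lin (c : ℂ) (c : ℂ))) (e0 N)) id
            - z) := by
        abel
      rw [h9]
      refine (norm_add_le _ _).trans ?_
      have h10 : (C1 + C2) / c ^ (N + 1) * T ^ (N + 1)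
          = C1 * (T / c) ^ (N + 1) + C2 * (T / c) ^ (N + 1) := by
        rw [div_pow]
        ring
      rw [h10]
      exact add_le_add h7 h8

end Pool.Agent.Lib.Helper28.Split

end
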